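import Pool.Agent.Lib.MP_31f1e8_mp.KLD.Defs

/-!
KLD-Near. Elementary facts on rates, thresholds, `near`, and the points of a chain.

`bb_*`: `2 ^ (j + 1)` etc.; `bb L j - bb L (j + 1) = L / 2 ^ (j + 2) = 2 * rr L j`.
`near_near`: `x - l - p_i`, `x + k al - l' - p_i'` small: subtract. If `i = i'` contradicts `hd`, otherwise `hn` for `k` or `-k`.
`close`: `exp (-(L N_i)) ≤ dl i / 16 ≤ dl j / 16 ^ (i - j + 1)`, geometric sum `≤ dl j / 15`. (Induction on `s`: prove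
`|(p s).1 - (p j).1| ≤ (dl j - dl s) / 15` for `j ≤ s`: `exp (-(L N_s)) ≤ dl s / 16 ≤ (dl s - dl (s + 1)) / 15` as `dl (s + 1) ≤ dl s / 16`.)
`near_down`: `2 dl s + dl j / 15 ≤ dl j / 2` for `j < s` (`dl s ≤ dl j / 16`).
-/

namespace Pool.Agent.MP31f1e8.KLD

theorem bb_zero (L : ℝ) : bb L 0 = L := by
  unfold bb
  norm_num

theorem bb_succ (L : ℝ) (j : ℕ) : bb L j - bb L (j + 1) = 2 * rr L j := by
  unfold bb rr
  have h : (2 : ℝ) ^ j ≠ 0 := pow_ne_zero _ two_ne_zero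
  have e1 : (2 : ℝ) ^ (j + 1) = 2 ^ j * 2 := pow_succ 2 j
  have e2 : (2 : ℝ) ^ (j + 1 + 1) = 2 ^ j * 4 := by rw [pow_succ, pow_succ]; ring
  have e3 : (2 : ℝ) ^ (j + 3) = 2 ^ j * 8 := by rw [pow_add]; norm_num
  rw [e1, e2, e3]
  field_simp
  ring

theorem rr_pos {L : ℝ} (hL : 0 < L) (j : ℕ) : 0 < rr L j := by
  unfold rr
  positivity

theorem bb_ge {L : ℝ} (hL : 0 < L) (j : ℕ) : L / 2 ≤ bb L j := by
  unfold bb
  have h : 0 < L * (1 / 2 ^ (j + 1)) := by positivity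
  linarith [mul_add L (1 / 2) (1 / 2 ^ (j + 1))]

theorem bb_anti {L : ℝ} (hL : 0 < L) {i j : ℕ} (h : i ≤ j) : bb L j ≤ bb L i := by
  refine antitone_nat_of_succ_le (f := bb L) (fun n => ?_) h
  linarith [bb_succ L n, rr_pos hL n]

theorem bb_le {L : ℝ} (hL : 0 < L) (j : ℕ) : bb L j ≤ L := by
  have h := bb_anti hL (Nat.zero_le j)
  rwa [bb_zero] at h

theorem dl_pos (L : ℝ) (N : ℕ → ℕ) (j : ℕ) : 0 < dl L N j := Real.exp_pos _

theorem N_ge {al L d1 mu : ℝ} {N : ℕ → ℕ} (hS : Sc al L d1 mu N) (j : ℕ) : j + 1 ≤ N j := by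
  induction j with
  | zero => rw [hS.zero]
  | succ j ih => have := hS.mono j; omega

private theorem dl_anti {al L d1 mu : ℝ} {N : ℕ → ℕ} (hS : Sc al L d1 mu N) {i j : ℕ} (h : i ≤ j) :
    dl L N j ≤ dl L N i := by
  refine antitone_nat_of_succ_le (f := dl L N) (fun n => ?_) h
  linarith [hS.small n, dl_pos L N n]

theorem dl_lt {al L d1 mu : ℝ} {N : ℕ → ℕ} (hS : Sc al L d1 mu N) {j s : ℕ} (h : j < s) :
    dl L N s ≤ dl L N j / 16 :=
  (dl_anti hS (Nat.succ_le_of_lt h)).trans (hS.small j)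

theorem near_mono {d d' x : ℝ} {p : ℝ × ℝ} (h : d ≤ d') (hn : near d x p) : near d' x p := by
  obtain ⟨l, hl | hl⟩ := hn
  · exact ⟨l, Or.inl (hl.trans_le h)⟩
  · exact ⟨l, Or.inr (hl.trans_le h)⟩

theorem near_add {d d' x y : ℝ} {p : ℝ × ℝ} (hn : near d x p) (hxy : ∃ l : ℤ, |y - x - l| ≤ d') :
    near (d + d') y p := by
  obtain ⟨l', hl'⟩ := hxy
  have key : ∀ (l : ℤ) (a : ℝ), |x - l - a| < d → |y - ((l + l' : ℤ) : ℝ) - a| < d + d' := by
    intro l a h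
    have e : y - ((l + l' : ℤ) : ℝ) - a = (x - l - a) + (y - x - l') := by push_cast; ring
    rw [e]
    exact (abs_add_le _ _).trans_lt (add_lt_add_of_lt_of_le h hl')
  obtain ⟨l, hl | hl⟩ := hn
  · exact ⟨l + l', Or.inl (key l _ hl)⟩
  · exact ⟨l + l', Or.inr (key l _ hl)⟩

theorem near_near {al de d d' x : ℝ} {M : ℕ} {p : ℝ × ℝ} (hd : ∀ k : ℤ, k ≠ 0 → |k| ≤ M → ∀ l : ℤ, 5 * de ≤ |k * al - l|)
    (hn : NR al de M p) (hdd : d + d' ≤ 5 * de) {k : ℤ} (hk : k ≠ 0) (hkM : |k| ≤ M) (h1 : near d x p)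
    (h2 : near d' (x + k * al) p) : False := by
  obtain ⟨l, hl⟩ := h1
  obtain ⟨l', hl'⟩ := h2
  have key : ∀ a b : ℝ, |x - l - a| < d → |x + k * al - l' - b| < d' →
      |k * al - ((l' - l : ℤ) : ℝ) - (b - a)| < 5 * de := by
    intro a b ha hb
    have e : k * al - ((l' - l : ℤ) : ℝ) - (b - a) = (x + k * al - l' - b) - (x - l - a) := by
      push_cast; ring
    rw [e]
    refine (abs_sub _ _).trans_lt ?_
    linarith
  rcases hl with ha | ha <;> rcases hl' with hb | hb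
  · have h3 := key _ _ ha hb
    rw [sub_self, sub_zero] at h3
    exact absurd (hd k hk hkM (l' - l)) (not_le.2 h3)
  · have h3 := key _ _ ha hb
    exact absurd (hn k hkM (l' - l)) (not_le.2 h3)
  · have h3 := key _ _ ha hb
    have h4 := hn (-k) (by rwa [abs_neg]) (-(l' - l))
    have e : ((-k : ℤ) : ℝ) * al - ((-(l' - l) : ℤ) : ℝ) - (p.2 - p.1) =
        -(k * al - ((l' - l : ℤ) : ℝ) - (p.1 - p.2)) := by push_cast; ring
    rw [e, abs_neg] at h4
    exact absurd h4 (not_le.2 h3)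
  · have h3 := key _ _ ha hb
    rw [sub_self, sub_zero] at h3
    exact absurd (hd k hk hkM (l' - l)) (not_le.2 h3)

variable {al c C L A1 A2 B1 B2 d1 mu : ℝ} {N : ℕ → ℕ} {F h : ℝ → ℝ} {s : ℕ} {p : ℕ → ℝ × ℝ}

private theorem close_aux (hS : Sc al L d1 mu N) (hch : Chain al c C L A1 A2 B1 B2 N F h s p) {j t : ℕ}
    (hj : j ≤ t) (ht : t ≤ s) :
    |(p t).1 - (p j).1| ≤ (dl L N j - dl L N t) / 15 ∧
      |(p t).2 - (p j).2| ≤ (dl L N j - dl L N t) / 15 := by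
  induction t, hj using Nat.le_induction with
  | base => simp
  | succ t hjt ih =>
    obtain ⟨h1, h2⟩ := ih (by omega)
    have hn := hch.nxt t (by omega)
    have g := hS.gap t
    have sm := hS.small t
    have e : Real.exp (-(L * N t)) ≤ (dl L N t - dl L N (t + 1)) / 15 := by linarith
    constructor
    · calc |(p (t + 1)).1 - (p j).1| = |((p (t + 1)).1 - (p t).1) + ((p t).1 - (p j).1)| := by
            congr 1; ring
        _ ≤ |(p (t + 1)).1 - (p t).1| + |(p t).1 - (p j).1| := abs_add_le _ _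
        _ ≤ _ := by linarith [hn.d1]
    · calc |(p (t + 1)).2 - (p j).2| = |((p (t + 1)).2 - (p t).2) + ((p t).2 - (p j).2)| := by
            congr 1; ring
        _ ≤ |(p (t + 1)).2 - (p t).2| + |(p t).2 - (p j).2| := abs_add_le _ _
        _ ≤ _ := by linarith [hn.d2]

theorem close (hS : Sc al L d1 mu N) (hch : Chain al c C L A1 A2 B1 B2 N F h s p) {j : ℕ} (hj : j ≤ s) :
    |(p s).1 - (p j).1| ≤ dl L N j / 15 ∧ |(p s).2 - (p j).2| ≤ dl L N j / 15 := by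
  obtain ⟨h1, h2⟩ := close_aux hS hch hj le_rfl
  have := dl_pos L N s
  exact ⟨by linarith, by linarith⟩

theorem near_down (hS : Sc al L d1 mu N) (hch : Chain al c C L A1 A2 B1 B2 N F h s p) {j : ℕ} (hj : j < s)
    {x : ℝ} (hx : near (2 * dl L N s) x (p s)) : near (dl L N j / 2) x (p j) := by
  obtain ⟨h1, h2⟩ := close hS hch hj.le
  have h3 := dl_lt hS hj
  have h4 := dl_pos L N j
  obtain ⟨l, hl | hl⟩ := hx
  · refine ⟨l, Or.inl ?_⟩
    calc |x - l - (p j).1| = |(x - l - (p s).1) + ((p s).1 - (p j).1)| := by congr 1; ring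
      _ ≤ |x - l - (p s).1| + |(p s).1 - (p j).1| := abs_add_le _ _
      _ < dl L N j / 2 := by linarith
  · refine ⟨l, Or.inr ?_⟩
    calc |x - l - (p j).2| = |(x - l - (p s).2) + ((p s).2 - (p j).2)| := by congr 1; ring
      _ ≤ |x - l - (p s).2| + |(p s).2 - (p j).2| := abs_add_le _ _
      _ < dl L N j / 2 := by linarith

/-- the points stay in the arcs, with a margin -/
theorem arcs (hc : 0 < c) (hC : c ≤ C) (hS : Sc al L (c / (4 * C)) mu N) (hch : Chain al c C L A1 A2 B1 B2 N F h s p) :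
    (A1 + 2 * dl L N s ≤ (p s).1 ∧ (p s).1 ≤ A2 - 2 * dl L N s) ∧
      (B1 + 2 * dl L N s ≤ (p s).2 ∧ (p s).2 ≤ B2 - 2 * dl L N s) := by
  have hC0 : 0 < C := hc.trans_le hC
  obtain ⟨h1, h2⟩ := close hS hch (Nat.zero_le s)
  have h3 := dl_anti hS (Nat.zero_le s)
  have h4 := hS.first
  have h5 := dl_pos L N 0
  have e : c / C = 4 * (c / (4 * C)) := by field_simp
  have b1 := hch.base.a1
  have b2 := hch.base.a2
  have b3 := hch.base.b1
  have b4 := hch.base.b2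
  rw [e] at b1 b2 b3 b4
  rw [abs_le] at h1 h2
  refine ⟨⟨?_, ?_⟩, ?_, ?_⟩ <;> linarith [h1.1, h1.2, h2.1, h2.2]

end Pool.Agent.MP31f1e8.KLD
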