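import Pool.Agent.Lib.MP_31f1e8_mp.KLD.Geo
import Pool.Agent.Lib.MP_31f1e8_mp.KLD.Near

/-!
KLD-Mono. Monotonicity of the resonant phases in the energy.

`v`, `v'`: the window solutions at `a = (p s).1` (energy `z`) and `a' = (p' s).1` (energy `z'`), both with window `N s` and `(J v)_0 = 0` (`base.lev.za` for `s = 0`, `hS.zero`; `(nxt (s - 1)).lev.za` otherwise).
`wron_bd` with `E = C (|a - a'| + |z - z'|)` (`lipF`, `liph`): `|F z a - F z' a'| ≤ 12 C exp (-(L / 2)) (..) ≤ (c / 4) (|a - a'| + (z' - z))`. Both points are in `[A1, A2]` (`arcs`).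
`F z' a' - F z a = (F z' a' - F z' a) + (F z' a - F z a)`, the second is in `[-C (z' - z), -c (z' - z)]`. If `a' ≤ a` the first is `≤ -c (a - a')`: total `≤ -c (|a - a'| + (z' - z))`, contradiction for `z < z'`.
So `a < a'` and `C (a' - a) ≥ F z' a' - F z' a ≥ c (z' - z) - (c / 4) (a' - a + z' - z)`: `(C + c / 4) (a' - a) ≥ (3 c / 4) (z' - z)`, `a' - a ≥ c / (4 C) (z' - z)`. For `b`: `decB`, the same with the opposite sign.
-/

namespace Pool.Agent.MP31f1e8.KLD

open Set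

/-- the window solutions at the two points of the last level -/
theorem mono_lev {al c C L A1 A2 B1 B2 d1 mu : ℝ} {N : ℕ → ℕ} {F h : ℝ → ℝ}
    (hS : Sc al L d1 mu N) {s : ℕ} {p : ℕ → ℝ × ℝ} (hch : Chain al c C L A1 A2 B1 B2 N F h s p) :
    (∃ u, Win al F h (N s) (p s).1 u ∧ Dec (bb L s) u ∧ Jop al F h (p s).1 u 0 = 0) ∧
      (∃ u, Win al F h (N s) (p s).2 u ∧ Dec (bb L s) u ∧ Jop al F h (p s).2 u 0 = 0) := by
  cases s with
  | zero =>
    rw [hS.zero]
    exact ⟨hch.base.lev.za, hch.base.lev.zb⟩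
  | succ j =>
    have h := (hch.nxt j (Nat.lt_succ_self j)).lev
    exact ⟨h.za, h.zb⟩

/-- comparison of two window solutions with `(J v)_0 = 0` -/
theorem mono_cmp {al c C L z1 z2 A1 A2 B1 B2 : ℝ} {F h : ℝ → ℝ → ℝ} {M : ℕ} (hM : 1 ≤ M)
    (H : Hyp c C L z1 z2 A1 A2 B1 B2 F h) {b : ℝ} (hb : L / 2 ≤ b) {z z' : ℝ} (hz : z ∈ Icc z1 z2)
    (hz' : z' ∈ Icc z1 z2) {x x' : ℝ} {v v' : ℤ → ℝ} (hv : Win al (F z) (h z) M x v)
    (hv' : Win al (F z') (h z') M x' v') (dv : Dec b v) (dv' : Dec b v')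
    (h0 : Jop al (F z) (h z) x v 0 = 0) (h0' : Jop al (F z') (h z') x' v' 0 = 0) :
    |F z x - F z' x'| ≤ c / 4 * (|x - x'| + |z - z'|) := by
  have hC : 0 < C := lt_of_lt_of_le H.hc H.hC
  have hs : 0 ≤ |x - x'| + |z - z'| := by positivity
  have hw := wron_bd (E := C * (|x - x'| + |z - z'|)) hb H.hL4 (by positivity) hM hv hv' dv dv'
    (fun m => by
      have := H.lipF z hz z' hz' (x + m * al) (x' + m * al)
      have e : x + (m : ℝ) * al - (x' + m * al) = x - x' := by ring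
      rwa [e] at this)
    (fun m => by
      have := H.liph z hz z' hz' (x + m * al) (x' + m * al)
      have e : x + (m : ℝ) * al - (x' + m * al) = x - x' := by ring
      rwa [e] at this)
  rw [h0, h0'] at hw
  have e : (0 : ℝ) - 0 - (F z x - F z' x') = -(F z x - F z' x') := by ring
  rw [e, abs_neg] at hw
  refine hw.trans ?_
  have h48 := H.hL
  have h12 : 12 * C * Real.exp (-(L / 2)) ≤ c / 4 := by linarith
  calc 12 * (C * (|x - x'| + |z - z'|)) * Real.exp (-(L / 2))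
      = (12 * C * Real.exp (-(L / 2))) * (|x - x'| + |z - z'|) := by ring
    _ ≤ c / 4 * (|x - x'| + |z - z'|) := mul_le_mul_of_nonneg_right h12 hs

theorem mono_z {al c C L z1 z2 A1 A2 B1 B2 mu : ℝ} {F h : ℝ → ℝ → ℝ} {N : ℕ → ℕ} (hL : 0 < L)
    (H : Hyp c C L z1 z2 A1 A2 B1 B2 F h) (hS : Sc al L (c / (4 * C)) mu N) {z z' : ℝ} (hz : z1 ≤ z)
    (hzz : z < z') (hz' : z' ≤ z2) {s : ℕ} {p p' : ℕ → ℝ × ℝ}
    (hch : Chain al c C L A1 A2 B1 B2 N (F z) (h z) s p)
    (hch' : Chain al c C L A1 A2 B1 B2 N (F z') (h z') s p') :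
    c / (4 * C) * (z' - z) ≤ (p' s).1 - (p s).1 ∧ c / (4 * C) * (z' - z) ≤ (p s).2 - (p' s).2 := by
  have hc : 0 < c := H.hc
  have hC : 0 < C := lt_of_lt_of_le H.hc H.hC
  have hcC : c ≤ C := H.hC
  have hzm : z ∈ Icc z1 z2 := ⟨hz, hzz.le.trans hz'⟩
  have hzm' : z' ∈ Icc z1 z2 := ⟨hz.trans hzz.le, hz'⟩
  have hM : 1 ≤ N s := le_trans (by omega) (N_ge hS s)
  have hb := bb_ge hL s
  have hd := dl_pos L N s
  obtain ⟨⟨a1, a2⟩, ⟨b1, b2⟩⟩ := arcs hc hcC hS hch
  obtain ⟨⟨a1', a2'⟩, ⟨b1', b2'⟩⟩ := arcs hc hcC hS hch'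
  obtain ⟨⟨u, hu, du, ju⟩, ⟨w, hw, dw, jw⟩⟩ := mono_lev hS hch
  obtain ⟨⟨u', hu', du', ju'⟩, ⟨w', hw', dw', jw'⟩⟩ := mono_lev hS hch'
  have hA := mono_cmp hM H hb hzm hzm' hu hu' du du' ju ju'
  have hB := mono_cmp hM H hb hzm hzm' hw hw' dw dw' jw jw'
  have hzab : |z - z'| = z' - z := by
    rw [abs_sub_comm, abs_of_pos (by linarith)]
  rw [hzab] at hA hB
  set a := (p s).1 with ha
  set a' := (p' s).1 with ha'
  set b := (p s).2 with hbb
  set b' := (p' s).2 with hbb'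
  have hdiv : c / (4 * C) * (4 * C) = c := by field_simp
  have key : ∀ t : ℝ, 0 ≤ t → 3 * c / 4 * (z' - z) ≤ (C + c / 4) * t → c / (4 * C) * (z' - z) ≤ t := by
    intro t ht h1
    have h2 : (C + c / 4) * t ≤ 5 * C / 4 * t := mul_le_mul_of_nonneg_right (by linarith) ht
    have h3 : c / (4 * C) * (z' - z) = c * (z' - z) / (4 * C) := by ring
    rw [h3, div_le_iff₀ (by positivity)]
    nlinarith
  constructor
  · have hdz := H.dz z z' hz hzz.le hz' a
    rcases le_or_gt a' a with hle | hlt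
    · exfalso
      have hi := H.incA z' hzm' a' a (by linarith) hle (by linarith)
      rw [abs_of_nonneg (by linarith : (0 : ℝ) ≤ a - a')] at hA
      have h1 := (abs_le.mp hA).2
      nlinarith
    · have hl := H.lipF z' hzm' z' hzm' a' a
      rw [sub_self, abs_zero, add_zero, abs_of_pos (by linarith : (0 : ℝ) < a' - a)] at hl
      have hl2 := (abs_le.mp hl).2
      rw [abs_sub_comm a a', abs_of_pos (by linarith : (0 : ℝ) < a' - a)] at hA
      have h1 := (abs_le.mp hA).2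
      refine key _ (by linarith) ?_
      nlinarith
  · have hdz := H.dz z z' hz hzz.le hz' b
    rcases le_or_gt b b' with hle | hlt
    · exfalso
      have hi := H.decB z' hzm' b b' (by linarith) hle (by linarith)
      rw [abs_sub_comm b b', abs_of_nonneg (by linarith : (0 : ℝ) ≤ b' - b)] at hB
      have h1 := (abs_le.mp hB).2
      nlinarith
    · have hl := H.lipF z' hzm' z' hzm' b' b
      rw [sub_self, abs_zero, add_zero, abs_sub_comm b' b,
        abs_of_pos (by linarith : (0 : ℝ) < b - b')] at hl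
      have hl2 := (abs_le.mp hl).2
      rw [abs_of_pos (by linarith : (0 : ℝ) < b - b')] at hB
      have h1 := (abs_le.mp hB).2
      refine key _ (by linarith) ?_
      nlinarith

end Pool.Agent.MP31f1e8.KLD
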