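import Pool.Agent.Lib.MP_31f1e8_mp.KLD.Seq
import Pool.Agent.Lib.MP_31f1e8_mp.KLD.Mono

/-!
KLD-Bad. The measure of the bad energies of level `s`.

Let `z ∈ Gd s`, `g z = (p s).2 - (p s).1` (`p = pseq .. z`). `¬ NR`: there are `k`, `l` with `|k| ≤ N (s + 1)`, `|k al - l - g z| < 5 dl s`. By `arcs` `0 < g z < 1` (`B1 - A2 > 0`, `B2 - A1 < 1`), and `5 dl s < 2`... precisely
`dl s ≤ dl 0 ≤ c / (4 C) ≤ 1 / 4`, so `-5/4 < k al - l < 9/4`, so `l - ⌊k al⌋ ∈ {-2, -1, 0, 1}` (at most 4 values; `l > k al - 9/4`, `l < k al + 5/4`).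
For fixed `(k, l)` two energies `z < z'` of the set have `g z - g z' ≥ c / (2 C) (z' - z)` (`mono_z`, `chain_of_good`), and `|g z - g z'| < 10 dl s`: `z' - z ≤ 20 (C / c) dl s`: the set has
diameter `≤ 20 (C / c) dl s`, so outer measure at most that (`Real.volume_le_diam`, `EMetric.diam_le`). The number of `(k, l)`: `(2 N (s + 1) + 1) * 4`. Union (`measure_iUnion_le` / `measure_biUnion_finset_le`):
`≤ 80 (C / c) (2 N (s + 1) + 1) dl s ≤ 80 (C / c) mu / 2 ^ (s + 1)`.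
-/

namespace Pool.Agent.MP31f1e8.KLD

open Set MeasureTheory

variable {al c C L z1 z2 A1 A2 B1 B2 mu : ℝ} {F h : ℝ → ℝ → ℝ} {N : ℕ → ℕ}

private theorem Bad_dl (H : Hyp c C L z1 z2 A1 A2 B1 B2 F h) (hS : Sc al L (c / (4 * C)) mu N) (s : ℕ) :
    dl L N s ≤ 1 / 4 := by
  have h0 : dl L N s ≤ dl L N 0 := by
    rcases Nat.eq_zero_or_pos s with h | h
    · rw [h]
    · have := dl_lt hS h
      have := dl_pos L N 0
      linarith
  have h1 := hS.first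
  have hC0 : 0 < C := lt_of_lt_of_le H.hc H.hC
  have h2 : c / (4 * C) ≤ 1 / 4 := by
    rw [div_le_div_iff₀ (by positivity) (by norm_num)]
    linarith [H.hC]
  linarith

/-- two energies with the same resonance -/
private theorem Bad_two (hL : 0 < L) (H : Hyp c C L z1 z2 A1 A2 B1 B2 F h) (hS : Sc al L (c / (4 * C)) mu N)
    (s : ℕ) {z z' t d : ℝ} (hz : z ∈ Gd al c C L z1 z2 A1 A2 B1 B2 N F h s)
    (hz' : z' ∈ Gd al c C L z1 z2 A1 A2 B1 B2 N F h s) (hzz : z < z')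
    (h1 : |t - ((pseq al c C L A1 A2 B1 B2 N F h z s).2 - (pseq al c C L A1 A2 B1 B2 N F h z s).1)| < 5 * d)
    (h2 : |t - ((pseq al c C L A1 A2 B1 B2 N F h z' s).2 - (pseq al c C L A1 A2 B1 B2 N F h z' s).1)| < 5 * d) :
    z' - z ≤ 20 * (C / c) * d := by
  have hc := H.hc
  have hC0 : 0 < C := lt_of_lt_of_le H.hc H.hC
  obtain ⟨m1, m2⟩ := mono_z hL H hS hz.1.1 hzz hz'.1.2 (chain_of_good hL H hS hz) (chain_of_good hL H hS hz')
  rw [abs_lt] at h1 h2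
  have h3 : c / (4 * C) * (z' - z) < 5 * d := by linarith [h1.1, h1.2, h2.1, h2.2]
  have h4 : c / (4 * C) * (z' - z) * (4 * C / c) = z' - z := by field_simp
  have h5 : c / (4 * C) * (z' - z) * (4 * C / c) ≤ 5 * d * (4 * C / c) :=
    mul_le_mul_of_nonneg_right h3.le (by positivity)
  rw [h4] at h5
  calc z' - z ≤ 5 * d * (4 * C / c) := h5
    _ = 20 * (C / c) * d := by ring

theorem vol_bad (hL : 0 < L) (H : Hyp c C L z1 z2 A1 A2 B1 B2 F h) (hS : Sc al L (c / (4 * C)) mu N)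
    (s : ℕ) :
    volume {z | z ∈ Gd al c C L z1 z2 A1 A2 B1 B2 N F h s ∧
      ¬ NR al (dl L N s) (N (s + 1)) (pseq al c C L A1 A2 B1 B2 N F h z s)} ≤
      ENNReal.ofReal (80 * (C / c) * (mu / 2 ^ (s + 1))) := by
  have hc := H.hc
  have hC0 : 0 < C := lt_of_lt_of_le H.hc H.hC
  have hd0 := dl_pos L N s
  have hd4 := Bad_dl H hS s
  set P : ℝ → ℝ × ℝ := fun z => pseq al c C L A1 A2 B1 B2 N F h z s with hP
  set S : ℤ → ℤ → Set ℝ := fun k l => {z | z ∈ Gd al c C L z1 z2 A1 A2 B1 B2 N F h s ∧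
    |k * al - l - ((P z).2 - (P z).1)| < 5 * dl L N s} with hSdef
  -- the measure of a single set
  have h1 : ∀ k l, volume (S k l) ≤ ENNReal.ofReal (20 * (C / c) * dl L N s) := by
    intro k l
    refine (Real.volume_le_diam _).trans ?_
    refine Metric.ediam_le ?_
    intro z hz z' hz'
    rw [edist_dist, Real.dist_eq]
    refine ENNReal.ofReal_le_ofReal ?_
    rcases lt_trichotomy z z' with hlt | heq | hgt
    · have := Bad_two hL H hS s hz.1 hz'.1 hlt hz.2 hz'.2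
      rw [abs_sub_comm, abs_of_pos (by linarith)]
      exact this
    · rw [heq, sub_self, abs_zero]
      positivity
    · have := Bad_two hL H hS s hz'.1 hz.1 hgt hz'.2 hz.2
      rw [abs_of_pos (by linarith)]
      exact this
  -- the covering
  have h2 : {z | z ∈ Gd al c C L z1 z2 A1 A2 B1 B2 N F h s ∧
      ¬ NR al (dl L N s) (N (s + 1)) (pseq al c C L A1 A2 B1 B2 N F h z s)} ⊆
      ⋃ q ∈ (Finset.Icc (-(N (s + 1) : ℤ)) (N (s + 1) : ℤ)) ×ˢ (Finset.Icc (-2 : ℤ) 1),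
        S q.1 (⌊(q.1 : ℝ) * al⌋ + q.2) := by
    intro z hz
    obtain ⟨hzG, hzN⟩ := hz
    unfold NR at hzN
    push Not at hzN
    obtain ⟨k, hk, l, hl⟩ := hzN
    obtain ⟨⟨a1, a2⟩, ⟨b1, b2⟩⟩ := arcs H.hc H.hC hS (chain_of_good hL H hS hzG)
    have hl' := abs_lt.1 hl
    have o1 := H.o1
    have o2 := H.o2
    have o3 := H.o3
    have o4 := H.o4
    have f1 := Int.floor_le ((k : ℝ) * al)
    have f2 := Int.lt_floor_add_one ((k : ℝ) * al)
    have e1 : (l : ℝ) < ⌊(k : ℝ) * al⌋ + 9 / 4 := by linarith [hl'.1, hl'.2]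
    have e2 : (⌊(k : ℝ) * al⌋ : ℝ) - 9 / 4 < l := by linarith [hl'.1, hl'.2]
    have e3 : -2 ≤ l - ⌊(k : ℝ) * al⌋ := by
      by_contra hcon
      push Not at hcon
      have : (l - ⌊(k : ℝ) * al⌋ : ℤ) ≤ -3 := by omega
      have : ((l - ⌊(k : ℝ) * al⌋ : ℤ) : ℝ) ≤ -3 := by exact_mod_cast this
      push_cast at this
      linarith
    have e4 : l - ⌊(k : ℝ) * al⌋ ≤ 1 := by
      by_contra hcon
      push Not at hcon
      have : (2 : ℤ) ≤ (l - ⌊(k : ℝ) * al⌋ : ℤ) := by omega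
      have : (2 : ℝ) ≤ ((l - ⌊(k : ℝ) * al⌋ : ℤ) : ℝ) := by exact_mod_cast this
      push_cast at this
      linarith [hl'.1, hl'.2]
    refine Set.mem_iUnion₂.2 ⟨(k, l - ⌊(k : ℝ) * al⌋), ?_, ?_⟩
    · rw [Finset.mem_product, Finset.mem_Icc, Finset.mem_Icc]
      exact ⟨abs_le.1 hk, e3, e4⟩
    · show z ∈ S k (⌊(k : ℝ) * al⌋ + (l - ⌊(k : ℝ) * al⌋))
      rw [add_sub_cancel]
      exact ⟨hzG, hl⟩
  refine (measure_mono h2).trans ((measure_biUnion_finset_le _ _).trans ?_)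
  refine (Finset.sum_le_sum fun q _ => h1 q.1 _).trans ?_
  rw [Finset.sum_const, nsmul_eq_mul, Finset.card_product, Int.card_Icc, Int.card_Icc]
  have hcard : ((((N (s + 1) : ℤ) + 1 - -(N (s + 1) : ℤ)).toNat * ((1 : ℤ) + 1 - -2).toNat : ℕ) : ENNReal) =
      ENNReal.ofReal ((2 * (N (s + 1) : ℝ) + 1) * 4) := by
    have e : (((N (s + 1) : ℤ) + 1 - -(N (s + 1) : ℤ)).toNat * ((1 : ℤ) + 1 - -2).toNat : ℕ) =
        (2 * N (s + 1) + 1) * 4 := by
      have e1 : ((N (s + 1) : ℤ) + 1 - -(N (s + 1) : ℤ)).toNat = 2 * N (s + 1) + 1 := by omega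
      rw [e1]
      rfl
    rw [e, ← ENNReal.ofReal_natCast]
    congr 1
    push_cast
    ring
  rw [hcard, ← ENNReal.ofReal_mul (by positivity)]
  refine ENNReal.ofReal_le_ofReal ?_
  have hsum := hS.sum s
  have h5 : 80 * (C / c) * ((2 * (N (s + 1) : ℝ) + 1) * dl L N s) ≤ 80 * (C / c) * (mu / 2 ^ (s + 1)) :=
    mul_le_mul_of_nonneg_left hsum (by positivity)
  calc (2 * (N (s + 1) : ℝ) + 1) * 4 * (20 * (C / c) * dl L N s)
      = 80 * (C / c) * ((2 * (N (s + 1) : ℝ) + 1) * dl L N s) := by ring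
    _ ≤ _ := h5

end Pool.Agent.MP31f1e8.KLD
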