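import Pool.Agent.Lib.MP_31f1e8_mp.KLD.Near

/-!
KLD-Base. The base level. `F = F z`. `F A1 = F (A1 + 1) ≤ -c` (`bot`), `F A2 ≥ c` (`top`): a zero `a` in `[A1, A2]` (intermediate value theorem, `F` is
`C`-Lipschitz); `c ≤ F a - F A1 ≤ C (a - A1)`, the same at `A2`. `F B1 ≥ c`, `F B2 ≤ -c`: zero `b` in `[B1, B2]`.
Window solution for `N = 1`: `u = e_0` (`u 0 = 1`, `0` otherwise), `Jop .. 0 = F x`. Lower bound: choose the integer `l` with `x - l ∈ [A1, A1 + 1)`, `F x = F (x - l)`
(period, integer multiples by induction). If `x - l ≤ A2`: `|F (x - l)| ≥ c |x - l - a| ≥ c d` (as `¬ near d x p`; `incA`); between `A2` and `B1`: `≥ c ≥ c d`; in `[B1, B2]`: `decB`; beyond `B2`: `bot`.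
(If `d < 0` the bound is trivial.)
-/

namespace Pool.Agent.MP31f1e8.KLD

open Set

theorem per_int {F : ℝ → ℝ} (hF : ∀ x, F (x + 1) = F x) (l : ℤ) (x : ℝ) : F (x - l) = F x := by
  have hP : Function.Periodic F 1 := hF
  have h := hP.sub_zsmul_eq (x := x) l
  simpa using h

/-- the window solution for `N = 1` -/
private def u0 (m : ℤ) : ℝ := if m = 0 then 1 else 0

private theorem u0_zero : u0 0 = 1 := by simp [u0]

private theorem u0_ne {m : ℤ} (hm : m ≠ 0) : u0 m = 0 := by simp [u0, hm]

private theorem u0_win (al : ℝ) (F h : ℝ → ℝ) (x : ℝ) : Win al F h 1 x u0 where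
  one := u0_zero
  out := fun m hm => u0_ne (by
    rintro rfl
    simp at hm)
  eq := fun m hm hm1 => by
    exfalso
    have h1 : |m| < 1 := by simpa using hm1
    exact hm (Int.abs_lt_one_iff.1 h1)

private theorem u0_dec (b : ℝ) : Dec b u0 := by
  intro m
  by_cases hm : m = 0
  · subst hm
    simp [u0_zero]
  · rw [u0_ne hm, abs_zero]
    exact (Real.exp_pos _).le

private theorem u0_jop (al : ℝ) (F h : ℝ → ℝ) (x : ℝ) : Jop al F h x u0 0 = F x := by
  unfold Jop
  rw [u0_zero, u0_ne (m := 0 + 1) (by norm_num), u0_ne (m := 0 - 1) (by norm_num)]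
  simp

theorem exists_base {al c C L z1 z2 A1 A2 B1 B2 : ℝ} {F h : ℝ → ℝ → ℝ} (hL : 0 < L)
    (H : Hyp c C L z1 z2 A1 A2 B1 B2 F h) {z : ℝ} (hz : z ∈ Icc z1 z2) :
    ∃ p, Base al c C L A1 A2 B1 B2 (F z) (h z) p := by
  have hc := H.hc
  have hC0 : 0 < C := hc.trans_le H.hC
  have hlip : ∀ x x', |F z x - F z x'| ≤ C * |x - x'| := by
    intro x x'
    have h1 := H.lipF z hz z hz x x'
    simpa using h1
  have hcont : Continuous (F z) := by
    refine (LipschitzWith.of_dist_le_mul (K := ⟨C, hC0.le⟩) ?_).continuous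
    intro x x'
    rw [Real.dist_eq, Real.dist_eq]
    exact hlip x x'
  have fA1 : F z A1 ≤ -c := by
    rw [← H.perF z A1]
    exact H.bot z hz (A1 + 1) H.o4.le le_rfl
  have fA2 : c ≤ F z A2 := H.top z hz A2 le_rfl H.o2.le
  have fB1 : c ≤ F z B1 := H.top z hz B1 H.o2.le le_rfl
  have fB2 : F z B2 ≤ -c := H.bot z hz B2 le_rfl H.o4.le
  obtain ⟨a, ha, fa⟩ : ∃ a ∈ Icc A1 A2, F z a = 0 := by
    have h1 := intermediate_value_Icc H.o1.le hcont.continuousOn
    exact h1 ⟨by linarith, by linarith⟩
  obtain ⟨b, hb, fb⟩ : ∃ b ∈ Icc B1 B2, F z b = 0 := by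
    have h1 := intermediate_value_Icc' H.o3.le hcont.continuousOn
    exact h1 ⟨by linarith, by linarith⟩
  have cC : ∀ t : ℝ, c ≤ C * t → c / C ≤ t := by
    intro t ht
    rw [div_le_iff₀ hC0]
    linarith
  have a1 : c / C ≤ a - A1 := by
    apply cC
    have h1 := hlip a A1
    rw [abs_of_nonneg (sub_nonneg.2 ha.1)] at h1
    have h2 := le_abs_self (F z a - F z A1)
    linarith
  have a2 : c / C ≤ A2 - a := by
    apply cC
    have h1 := hlip A2 a
    rw [abs_of_nonneg (sub_nonneg.2 ha.2)] at h1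
    have h2 := le_abs_self (F z A2 - F z a)
    linarith
  have b1 : c / C ≤ b - B1 := by
    apply cC
    have h1 := hlip b B1
    rw [abs_of_nonneg (sub_nonneg.2 hb.1)] at h1
    have h2 := neg_abs_le (F z b - F z B1)
    linarith
  have b2 : c / C ≤ B2 - b := by
    apply cC
    have h1 := hlip B2 b
    rw [abs_of_nonneg (sub_nonneg.2 hb.2)] at h1
    have h2 := neg_abs_le (F z B2 - F z b)
    linarith
  refine ⟨(a, b), ⟨⟨?_, ?_, ?_⟩, ?_, ?_, ?_, ?_⟩⟩
  · intro x _
    refine ⟨u0, u0_win al _ _ x, u0_dec _, ?_⟩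
    intro d hd hn
    rw [u0_jop]
    rcases le_or_gt d 0 with hd0 | hd0
    · have h1 : c / 2 * d ≤ 0 := mul_nonpos_of_nonneg_of_nonpos (by linarith) hd0
      exact h1.trans (abs_nonneg _)
    · have hfx : F z (x - (⌊x - A1⌋ : ℤ)) = F z x := per_int (H.perF z) _ x
      rw [← hfx]
      have hy1 : A1 ≤ x - (⌊x - A1⌋ : ℤ) := by
        have := Int.floor_le (x - A1)
        linarith
      have hy2 : x - (⌊x - A1⌋ : ℤ) < A1 + 1 := by
        have := Int.lt_floor_add_one (x - A1)
        linarith
      have hya : d ≤ |x - (⌊x - A1⌋ : ℤ) - a| := by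
        by_contra hcon
        exact hn ⟨⌊x - A1⌋, Or.inl (not_le.1 hcon)⟩
      have hyb : d ≤ |x - (⌊x - A1⌋ : ℤ) - b| := by
        by_contra hcon
        exact hn ⟨⌊x - A1⌋, Or.inr (not_le.1 hcon)⟩
      generalize x - (⌊x - A1⌋ : ℤ) = y at hy1 hy2 hya hyb ⊢
      have hcd : c * d ≤ c := by nlinarith
      have hcd0 : 0 < c * d := mul_pos hc hd0
      have hlow : c * d ≤ |F z y| := by
        rcases le_or_gt y A2 with h1 | h1
        · rcases le_or_gt a y with h2 | h2
          · rw [abs_of_nonneg (sub_nonneg.2 h2)] at hya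
            have h3 := H.incA z hz a y ha.1 h2 h1
            rw [fa, sub_zero] at h3
            have h4 : c * d ≤ c * (y - a) := mul_le_mul_of_nonneg_left hya hc.le
            exact (h4.trans h3).trans (le_abs_self _)
          · rw [abs_of_neg (sub_neg.2 h2)] at hya
            have h3 := H.incA z hz y a hy1 h2.le ha.2
            rw [fa, zero_sub] at h3
            have h4 : c * d ≤ c * (a - y) := mul_le_mul_of_nonneg_left (by linarith) hc.le
            exact (h4.trans h3).trans (neg_le_abs _)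
        · rcases le_or_gt y B1 with h2 | h2
          · exact hcd.trans ((H.top z hz y h1.le h2).trans (le_abs_self _))
          · rcases le_or_gt y B2 with h3 | h3
            · rcases le_or_gt b y with h4 | h4
              · rw [abs_of_nonneg (sub_nonneg.2 h4)] at hyb
                have h5 := H.decB z hz b y hb.1 h4 h3
                rw [fb, zero_sub] at h5
                have h6 : c * d ≤ c * (y - b) := mul_le_mul_of_nonneg_left hyb hc.le
                exact (h6.trans h5).trans (neg_le_abs _)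
              · rw [abs_of_neg (sub_neg.2 h4)] at hyb
                have h5 := H.decB z hz y b h2.le h4.le hb.2
                rw [fb, sub_zero] at h5
                have h6 : c * d ≤ c * (b - y) := mul_le_mul_of_nonneg_left (by linarith) hc.le
                exact (h6.trans h5).trans (le_abs_self _)
            · have h4 := H.bot z hz y h3.le hy2.le
              have h5 : c ≤ -F z y := by linarith
              exact hcd.trans (h5.trans (neg_le_abs _))
      linarith
  · exact ⟨u0, u0_win al _ _ _, u0_dec _, by rw [u0_jop]; exact fa⟩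
  · exact ⟨u0, u0_win al _ _ _, u0_dec _, by rw [u0_jop]; exact fb⟩
  · show A1 + c / C ≤ a
    linarith
  · show a ≤ A2 - c / C
    linarith
  · show B1 + c / C ≤ b
    linarith
  · show b ≤ B2 - c / C
    linarith

end Pool.Agent.MP31f1e8.KLD
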