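import Pool.Agent.Lib.MP_31f1e8_mp.KLD.Defs

/-!
KLD-Clos. The set of the phases with an exponentially decaying solution is closed.

`S` is the projection of the set `K` of all `(x, z, u)` with `z ∈ Icc z1 z2`, `u 0 = 1`, `|u m| ≤ exp (..)`, `Jop .. = 0`. Sequences: `x_n ∈ S`, `x_n → x` with `z_n`, `u_n`: the pairs `(z_n, u_n)` are in the compact set
`Icc z1 z2 ×ˢ Set.pi univ (fun m => Icc (-exp ..) (exp ..))` of `ℝ × (ℤ → ℝ)`, a subsequence converges (`IsCompact.tendsto_subseq`), the conditions pass to the limit since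
`|F z_n (x_n + m al) - F z (x + m al)| ≤ C (|x_n - x| + |z_n - z|) → 0`. (`IsSeqClosed.isClosed`, or `isClosed_of_closure_subset` and `mem_closure_iff_seq_limit`.)
-/

namespace Pool.Agent.MP31f1e8.KLD

open Set Filter Topology

/-- the phases with an exponentially decaying solution at some energy in `[z1, z2]` -/
def Loc (al L z1 z2 : ℝ) (F h : ℝ → ℝ → ℝ) : Set ℝ :=
  {x | ∃ z ∈ Icc z1 z2, ∃ u : ℤ → ℝ, u 0 = 1 ∧ (∀ m : ℤ, |u m| ≤ Real.exp (-(L / 2 * |(m : ℝ)|))) ∧
    ∀ m : ℤ, Jop al (F z) (h z) x u m = 0}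

theorem loc_closed {al c C L z1 z2 A1 A2 B1 B2 : ℝ} {F h : ℝ → ℝ → ℝ}
    (H : Hyp c C L z1 z2 A1 A2 B1 B2 F h) : IsClosed (Loc al L z1 z2 F h) := by
  rw [← isSeqClosed_iff_isClosed]
  intro xs x hxs hx
  choose zs hzs us h0 hdec heq using hxs
  -- compactness
  obtain ⟨D, hD⟩ : ∃ D : ℤ → Set ℝ, D = fun m : ℤ => Icc (-Real.exp (-(L / 2 * |(m : ℝ)|)))
      (Real.exp (-(L / 2 * |(m : ℝ)|))) := ⟨_, rfl⟩
  have hK : IsCompact (Icc z1 z2 ×ˢ Set.pi univ D) := by
    refine isCompact_Icc.prod (isCompact_univ_pi fun m => ?_)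
    rw [hD]
    exact isCompact_Icc
  obtain ⟨⟨z, u⟩, ⟨hz, hu⟩, φ, hφ, hlim⟩ := hK.tendsto_subseq (x := fun n => (zs n, us n)) (fun n =>
    ⟨hzs n, fun m _ => by rw [hD]; exact abs_le.1 (hdec n m)⟩)
  have hzlim : Tendsto (fun n => zs (φ n)) atTop (𝓝 z) := (continuous_fst.tendsto _).comp hlim
  have hulim : ∀ m, Tendsto (fun n => us (φ n) m) atTop (𝓝 (u m)) := fun m =>
    ((continuous_apply m).tendsto _).comp ((continuous_snd.tendsto _).comp hlim)
  have hxlim : Tendsto (fun n => xs (φ n)) atTop (𝓝 x) := hx.comp hφ.tendsto_atTop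
  have hE : Tendsto (fun n => C * (|xs (φ n) - x| + |zs (φ n) - z|)) atTop (𝓝 0) := by
    have h1 : Tendsto (fun n => |xs (φ n) - x|) atTop (𝓝 0) := by
      have := (hxlim.sub_const x).abs
      simpa using this
    have h2 : Tendsto (fun n => |zs (φ n) - z|) atTop (𝓝 0) := by
      have := (hzlim.sub_const z).abs
      simpa using this
    have := (h1.add h2).const_mul C
    simpa using this
  have hcoef : ∀ G : ℝ → ℝ → ℝ, (∀ z ∈ Icc z1 z2, ∀ z' ∈ Icc z1 z2, ∀ x x',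
      |G z x - G z' x'| ≤ C * (|x - x'| + |z - z'|)) → ∀ c : ℝ,
      Tendsto (fun n => G (zs (φ n)) (xs (φ n) + c)) atTop (𝓝 (G z (x + c))) := by
    intro G hG c
    rw [tendsto_iff_dist_tendsto_zero]
    refine squeeze_zero (fun n => dist_nonneg) (fun n => ?_) hE
    rw [Real.dist_eq]
    refine (hG _ (hzs _) _ hz _ _).trans (le_of_eq ?_)
    congr 2
    congr 1
    ring
  refine ⟨z, hz, u, ?_, fun m => ?_, fun m => ?_⟩
  · have h1 := hulim 0
    have h2 : (fun n => us (φ n) 0) = fun _ => (1 : ℝ) := by funext n; exact h0 _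
    rw [h2] at h1
    exact (tendsto_nhds_unique h1 tendsto_const_nhds)
  · have := hu m (mem_univ m)
    rw [hD] at this
    exact abs_le.2 this
  · have h1 : Tendsto (fun n => Jop al (F (zs (φ n))) (h (zs (φ n))) (xs (φ n)) (us (φ n)) m) atTop
        (𝓝 (Jop al (F z) (h z) x u m)) := by
      unfold Jop
      exact (((hcoef F H.lipF _).mul (hulim m)).sub ((hcoef h H.liph _).mul (hulim (m + 1)))).sub
        ((hcoef h H.liph _).mul (hulim (m - 1)))
    have h2 : (fun n => Jop al (F (zs (φ n))) (h (zs (φ n))) (xs (φ n)) (us (φ n)) m) =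
        fun _ => (0 : ℝ) := by funext n; exact heq _ m
    rw [h2] at h1
    exact (tendsto_nhds_unique h1 tendsto_const_nhds)

end Pool.Agent.MP31f1e8.KLD
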