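import Mathlib

/-!
# Part D of project KL (MP_31f1e8_mp): quasi-periodic Jacobi equation at fixed energy, two branches.
Definitions (auxiliary, not used in the final statement).
-/

namespace Pool.Agent.MP31f1e8.KLD

open Set

/-- `(J u)_m = F(x + m α) u_m - h(x + m α) u_{m+1} - h(x + (m-1) α) u_{m-1}` (fixed energy). -/
def Jop (al : ℝ) (F h : ℝ → ℝ) (x : ℝ) (u : ℤ → ℝ) (m : ℤ) : ℝ :=
  F (x + m * al) * u m - h (x + m * al) * u (m + 1) - h (x + (m - 1) * al) * u (m - 1)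

/-- Window solution on `(-N, N)`: `u_0 = 1`, zero outside, `(J u)_m = 0` for `0 < |m| < N`. -/
structure Win (al : ℝ) (F h : ℝ → ℝ) (N : ℕ) (x : ℝ) (u : ℤ → ℝ) : Prop where
  one : u 0 = 1
  out : ∀ m : ℤ, (N : ℤ) ≤ |m| → u m = 0
  eq : ∀ m : ℤ, m ≠ 0 → |m| < N → Jop al F h x u m = 0

/-- Exponential decay with rate `b`. -/
def Dec (b : ℝ) (u : ℤ → ℝ) : Prop := ∀ m : ℤ, |u m| ≤ Real.exp (-(b * |(m : ℝ)|))

/-- `x` is `d`-near to `p.1` or `p.2` modulo `1`. -/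
def near (d x : ℝ) (p : ℝ × ℝ) : Prop := ∃ l : ℤ, |x - l - p.1| < d ∨ |x - l - p.2| < d

/-- decay rates `b_j`, decreasing from `L` to `L / 2` -/
noncomputable def bb (L : ℝ) (j : ℕ) : ℝ := L * (1 / 2 + 1 / 2 ^ (j + 1))

/-- `b_j - b_{j+1} = 2 r_j` -/
noncomputable def rr (L : ℝ) (j : ℕ) : ℝ := L / 2 ^ (j + 3)

/-- thresholds: `dl j` is the resonance threshold of level `j + 1` -/
noncomputable def dl (L : ℝ) (N : ℕ → ℕ) (j : ℕ) : ℝ := Real.exp (-(rr L j * N j))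

/-- The scales `N_j` (they depend on `α`, `L` only). -/
structure Sc (al L d1 mu : ℝ) (N : ℕ → ℕ) : Prop where
  zero : N 0 = 1
  mono : ∀ j, N j < N (j + 1)
  ret : ∀ j, ∃ l : ℤ, |(N (j + 2) : ℝ) * al - l| ≤ dl L N j / 2
  dio : ∀ j, ∀ k : ℤ, k ≠ 0 → |k| ≤ N (j + 1) → ∀ l : ℤ, 5 * dl L N j ≤ |k * al - l|
  small : ∀ j, dl L N (j + 1) ≤ dl L N j / 16
  first : dl L N 0 ≤ d1
  gap : ∀ j, 16 * Real.exp (-(L * N j)) ≤ dl L N j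
  sum : ∀ j, (2 * (N (j + 1) : ℝ) + 1) * dl L N j ≤ mu / 2 ^ (j + 1)

/-- Diophantine condition with exponent `2`. -/
def Dio (gam al : ℝ) : Prop := ∀ k : ℤ, k ≠ 0 → ∀ l : ℤ, gam / (k : ℝ) ^ 2 ≤ |k * al - l|

/-- The hypotheses on the coefficients `F z x`, `h z x` (`z` the energy, `x` the phase). -/
structure Hyp (c C L z1 z2 A1 A2 B1 B2 : ℝ) (F h : ℝ → ℝ → ℝ) : Prop where
  hc : 0 < c
  hC : c ≤ C
  hL : 48 * C * Real.exp (-(L / 2)) ≤ c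
  hL4 : 4 * Real.exp (-(L / 2)) ≤ 1
  o1 : A1 < A2
  o2 : A2 < B1
  o3 : B1 < B2
  o4 : B2 < A1 + 1
  perF : ∀ z x, F z (x + 1) = F z x
  perh : ∀ z x, h z (x + 1) = h z x
  lipF : ∀ z ∈ Icc z1 z2, ∀ z' ∈ Icc z1 z2, ∀ x x', |F z x - F z' x'| ≤ C * (|x - x'| + |z - z'|)
  liph : ∀ z ∈ Icc z1 z2, ∀ z' ∈ Icc z1 z2, ∀ x x', |h z x - h z' x'| ≤ C * (|x - x'| + |z - z'|)
  hh : ∀ z ∈ Icc z1 z2, ∀ x, |h z x| ≤ c / 4 * Real.exp (-L)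
  dz : ∀ z z', z1 ≤ z → z ≤ z' → z' ≤ z2 → ∀ x, c * (z' - z) ≤ F z x - F z' x
  incA : ∀ z ∈ Icc z1 z2, ∀ x y, A1 ≤ x → x ≤ y → y ≤ A2 → c * (y - x) ≤ F z y - F z x
  decB : ∀ z ∈ Icc z1 z2, ∀ x y, B1 ≤ x → x ≤ y → y ≤ B2 → c * (y - x) ≤ F z x - F z y
  top : ∀ z ∈ Icc z1 z2, ∀ x, A2 ≤ x → x ≤ B1 → c ≤ F z x
  bot : ∀ z ∈ Icc z1 z2, ∀ x, B2 ≤ x → x ≤ A1 + 1 → F z x ≤ -c

/-- All phases in `R` have a window solution with decay, and a lower bound for `(J u)_0` away from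
`p`; at the two points of `p` there are window solutions with `(J u)_0 = 0`. -/
structure Lev (al c b : ℝ) (N : ℕ) (F h : ℝ → ℝ) (R : ℝ → Prop) (p : ℝ × ℝ) : Prop where
  low : ∀ x, R x → ∃ u, Win al F h N x u ∧ Dec b u ∧
    ∀ d, d ≤ 1 → ¬ near d x p → c / 2 * d ≤ |Jop al F h x u 0|
  za : ∃ u, Win al F h N p.1 u ∧ Dec b u ∧ Jop al F h p.1 u 0 = 0
  zb : ∃ u, Win al F h N p.2 u ∧ Dec b u ∧ Jop al F h p.2 u 0 = 0

/-- From level `j` (points `p`) to level `j + 1` (points `q`). -/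
structure Nxt (al c L : ℝ) (N : ℕ → ℕ) (F h : ℝ → ℝ) (j : ℕ) (p q : ℝ × ℝ) : Prop where
  lev : Lev al c (bb L (j + 1)) (N (j + 1)) F h (fun x => near (2 * dl L N j) x p) q
  d1 : |q.1 - p.1| ≤ Real.exp (-(L * N j))
  d2 : |q.2 - p.2| ≤ Real.exp (-(L * N j))

/-- No double resonance. -/
def NR (al d : ℝ) (M : ℕ) (p : ℝ × ℝ) : Prop :=
  ∀ k : ℤ, |k| ≤ M → ∀ l : ℤ, 5 * d ≤ |k * al - l - (p.2 - p.1)|

/-- The base level: the zeros of `F` itself. -/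
structure Base (al c C L A1 A2 B1 B2 : ℝ) (F h : ℝ → ℝ) (p : ℝ × ℝ) : Prop where
  lev : Lev al c (bb L 0) 1 F h (fun _ => True) p
  a1 : A1 + c / C ≤ p.1
  a2 : p.1 ≤ A2 - c / C
  b1 : B1 + c / C ≤ p.2
  b2 : p.2 ≤ B2 - c / C

/-- A chain of levels `0, …, s` (fixed energy). -/
structure Chain (al c C L A1 A2 B1 B2 : ℝ) (N : ℕ → ℕ) (F h : ℝ → ℝ) (s : ℕ) (p : ℕ → ℝ × ℝ) :
    Prop where
  base : Base al c C L A1 A2 B1 B2 F h (p 0)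
  nr : ∀ j, j < s → NR al (dl L N j) (N (j + 1)) (p j)
  nxt : ∀ j, j < s → Nxt al c L N F h j (p j) (p (j + 1))

end Pool.Agent.MP31f1e8.KLD
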