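import Pool.Agent.Lib.MP_31f1e8_mp.KLD.Defs

/-!
KLD-Exist. Existence of the window solution from uniqueness. Let `S = {m | m ≠ 0, |m| < N}` (a finite type). The linear map
`T : (S → ℝ) → (S → ℝ)`, `(T w) m = Jop (w extended by 0) m` is injective by hypothesis, so surjective
(`LinearMap.injective_iff_surjective`). Take `w` with `T w = - (J e_0)|_S`, `u = e_0 + w`.
-/

namespace Pool.Agent.MP31f1e8.KLD

private abbrev SS (N : ℕ) : Type := {m : ℤ // m ≠ 0 ∧ |m| < N}

private theorem SS_fin (N : ℕ) : Finite (SS N) := by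
  have h : Set.Finite {m : ℤ | m ≠ 0 ∧ |m| < N} := by
    refine (Set.finite_Icc (-(N : ℤ)) N).subset ?_
    intro m hm
    obtain ⟨h1, h2⟩ := abs_lt.mp hm.2
    exact ⟨h1.le, h2.le⟩
  exact h.to_subtype

/-- extension by zero -/
private noncomputable def exx (N : ℕ) (w : SS N → ℝ) (m : ℤ) : ℝ :=
  open Classical in if h : m ≠ 0 ∧ |m| < N then w ⟨m, h⟩ else 0

private theorem exx_in {N : ℕ} (w : SS N → ℝ) {m : ℤ} (h : m ≠ 0 ∧ |m| < N) :
    exx N w m = w ⟨m, h⟩ := by
  unfold exx
  rw [dif_pos h]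

private theorem exx_out {N : ℕ} (w : SS N → ℝ) {m : ℤ} (h : ¬ (m ≠ 0 ∧ |m| < N)) :
    exx N w m = 0 := by
  unfold exx
  rw [dif_neg h]

private theorem exx_add {N : ℕ} (v w : SS N → ℝ) (m : ℤ) :
    exx N (v + w) m = exx N v m + exx N w m := by
  by_cases h : m ≠ 0 ∧ |m| < N
  · rw [exx_in _ h, exx_in _ h, exx_in _ h]; rfl
  · rw [exx_out _ h, exx_out _ h, exx_out _ h, add_zero]

private theorem exx_smul {N : ℕ} (c : ℝ) (w : SS N → ℝ) (m : ℤ) :
    exx N (c • w) m = c * exx N w m := by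
  by_cases h : m ≠ 0 ∧ |m| < N
  · rw [exx_in _ h, exx_in _ h]; rfl
  · rw [exx_out _ h, exx_out _ h, mul_zero]

private noncomputable def TT (al : ℝ) (F h : ℝ → ℝ) (x : ℝ) (N : ℕ) : (SS N → ℝ) →ₗ[ℝ] (SS N → ℝ) where
  toFun w := fun m => Jop al F h x (exx N w) m.1
  map_add' v w := by
    funext m
    simp only [Jop, exx_add, Pi.add_apply]
    ring
  map_smul' c w := by
    funext m
    simp only [Jop, exx_smul, Pi.smul_apply, smul_eq_mul, RingHom.id_apply]
    ring

theorem exist_win {al : ℝ} {F h : ℝ → ℝ} {N : ℕ} (hN : 1 ≤ N) {x : ℝ}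
    (hu : ∀ u : ℤ → ℝ, u 0 = 0 → (∀ m : ℤ, (N : ℤ) ≤ |m| → u m = 0) →
      (∀ m : ℤ, m ≠ 0 → |m| < N → Jop al F h x u m = 0) → ∀ m, u m = 0) :
    ∃ u, Win al F h N x u := by
  have hfin : Finite (SS N) := SS_fin N
  have hinj : Function.Injective (TT al F h x N) := by
    rw [injective_iff_map_eq_zero]
    intro w hw
    have h1 : ∀ m, exx N w m = 0 := by
      refine hu (exx N w) (exx_out _ (fun h => h.1 rfl)) ?_ ?_
      · intro m hm
        exact exx_out _ (fun h => absurd h.2 (not_lt.mpr hm))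
      · intro m h0 hm
        exact congrFun hw ⟨m, h0, hm⟩
    funext m
    have h2 := h1 m.1
    rw [exx_in w m.2] at h2
    exact h2
  have hsur : Function.Surjective (TT al F h x N) := LinearMap.injective_iff_surjective.mp hinj
  obtain ⟨w, hw⟩ := hsur (fun m => -Jop al F h x (fun k => if k = 0 then 1 else 0) m.1)
  refine ⟨fun m => (if m = 0 then 1 else 0) + exx N w m, ?_, ?_, ?_⟩
  · simp only [if_true]
    rw [exx_out w (fun h => h.1 rfl), add_zero]
  · intro m hm
    have hm0 : m ≠ 0 := by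
      rintro rfl
      rw [abs_zero] at hm
      have : (1 : ℤ) ≤ N := by exact_mod_cast hN
      linarith
    rw [if_neg hm0, exx_out w (fun h => absurd h.2 (not_lt.mpr hm)), add_zero]
  · intro m h0 hm
    have h1 : Jop al F h x (exx N w) m = -Jop al F h x (fun k => if k = 0 then 1 else 0) m :=
      congrFun hw ⟨m, h0, hm⟩
    have h2 : Jop al F h x (fun m => (if m = 0 then 1 else 0) + exx N w m) m =
        Jop al F h x (fun k => if k = 0 then 1 else 0) m + Jop al F h x (exx N w) m := by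
      simp only [Jop]
      ring
    rw [h2, h1]
    ring

end Pool.Agent.MP31f1e8.KLD
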