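import Pool.Agent.Lib.MP_31f1e8_mp.KLD.Pair

/-!
KLD-Geo. The Wronskian identity with geometric sums.
`q = exp (-(L / 2)) ≤ 1 / 4`. From `wron`: the term `m = 0` of the first sum is `F x - F' x'`; the other terms are bounded by
`E q ^ (2 |m|)` (each of `v`, `v'` is `≤ exp (-(b |m|)) ≤ q ^ |m|`), sum `≤ 2 E q ^ 2 / (1 - q ^ 2) ≤ E q`; the second sum: the term `m`
is bounded by `2 E q ^ (|m| + |m + 1|)`, sum `≤ 4 E q / (1 - q ^ 2) ≤ 5 E q`.
-/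

namespace Pool.Agent.MP31f1e8.KLD

open Set

private theorem dec_pow {L b : ℝ} (hb : L / 2 ≤ b) {v : ℤ → ℝ} (dv : Dec b v) (m : ℤ) :
    |v m| ≤ Real.exp (-(L / 2)) ^ m.natAbs := by
  refine (dv m).trans ?_
  rw [← Real.exp_nat_mul]
  apply Real.exp_le_exp.2
  have h1 : ((m.natAbs : ℕ) : ℝ) = |(m : ℝ)| := by
    rw [← Int.cast_abs, Nat.cast_natAbs]
  rw [h1]
  nlinarith [abs_nonneg (m : ℝ)]

private theorem geo1 {q : ℝ} (h0 : 0 ≤ q) (h1 : 4 * q ≤ 1) (N : ℕ) :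
    ∑ m ∈ Finset.Ico (-(N : ℤ)) N, q ^ (m.natAbs + (m + 1).natAbs) ≤ 32 / 15 * q * (1 - (q ^ 2) ^ N) := by
  induction N with
  | zero => simp
  | succ N ih =>
    have e1 : Finset.Ico (-((N + 1 : ℕ) : ℤ)) ((N + 1 : ℕ) : ℤ) =
        insert (-(N : ℤ) - 1) (insert (N : ℤ) (Finset.Ico (-(N : ℤ)) N)) := by
      ext m
      simp only [Finset.mem_insert, Finset.mem_Ico]
      push_cast
      omega
    have e2 : (N : ℤ) ∉ Finset.Ico (-(N : ℤ)) (N : ℤ) := by simp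
    have e3 : (-(N : ℤ) - 1) ∉ insert (N : ℤ) (Finset.Ico (-(N : ℤ)) (N : ℤ)) := by
      simp only [Finset.mem_insert, Finset.mem_Ico]
      omega
    rw [e1, Finset.sum_insert e3, Finset.sum_insert e2]
    have f1 : (-(N : ℤ) - 1).natAbs + (-(N : ℤ) - 1 + 1).natAbs = 2 * N + 1 := by omega
    have f2 : (N : ℤ).natAbs + ((N : ℤ) + 1).natAbs = 2 * N + 1 := by omega
    rw [f1, f2]
    have f3 : q ^ (2 * N + 1) = (q ^ 2) ^ N * q := by rw [pow_succ, pow_mul]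
    rw [f3, pow_succ (q ^ 2) N]
    have f4 : 0 ≤ (q ^ 2) ^ N := by positivity
    have f5 : q ^ 2 ≤ 1 / 16 := by nlinarith
    have f6 : 0 ≤ (q ^ 2) ^ N * q := by positivity
    nlinarith [mul_nonneg f6 (sub_nonneg.2 f5)]

private theorem geo2 {q : ℝ} (h0 : 0 ≤ q) (h1 : 4 * q ≤ 1) (N : ℕ) :
    ∑ m ∈ Finset.Ioo (-((N + 1 : ℕ) : ℤ)) ((N + 1 : ℕ) : ℤ), (if m = 0 then 0 else q ^ (2 * m.natAbs)) ≤
      q * (1 - (q ^ 2) ^ N) := by
  induction N with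
  | zero =>
    have e1 : Finset.Ioo (-((0 + 1 : ℕ) : ℤ)) ((0 + 1 : ℕ) : ℤ) = {0} := by decide
    rw [e1]
    simp
  | succ N ih =>
    have e1 : Finset.Ioo (-((N + 1 + 1 : ℕ) : ℤ)) ((N + 1 + 1 : ℕ) : ℤ) =
        insert (-(N : ℤ) - 1) (insert ((N : ℤ) + 1) (Finset.Ioo (-((N + 1 : ℕ) : ℤ)) ((N + 1 : ℕ) : ℤ))) := by
      ext m
      simp only [Finset.mem_insert, Finset.mem_Ioo]
      push_cast
      omega
    have e2 : (N : ℤ) + 1 ∉ Finset.Ioo (-((N + 1 : ℕ) : ℤ)) ((N + 1 : ℕ) : ℤ) := by simp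
    have e3 : (-(N : ℤ) - 1) ∉ insert ((N : ℤ) + 1) (Finset.Ioo (-((N + 1 : ℕ) : ℤ)) ((N + 1 : ℕ) : ℤ)) := by
      simp only [Finset.mem_insert, Finset.mem_Ioo]
      push_cast
      omega
    rw [e1, Finset.sum_insert e3, Finset.sum_insert e2, if_neg (by omega), if_neg (by omega)]
    have f1 : 2 * (-(N : ℤ) - 1).natAbs = 2 * (N + 1) := by omega
    have f2 : 2 * ((N : ℤ) + 1).natAbs = 2 * (N + 1) := by omega
    rw [f1, f2, pow_mul, pow_succ (q ^ 2) N]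
    have f4 : 0 ≤ (q ^ 2) ^ N := by positivity
    have f6 : 0 ≤ (q ^ 2) ^ N * q := by positivity
    have f7 : (q ^ 2) ^ N * q ^ 2 * 2 ≤ (q ^ 2) ^ N * q * (1 - q ^ 2) := by
      have : q * 2 ≤ 1 - q ^ 2 := by nlinarith
      have := mul_le_mul_of_nonneg_left this f6
      calc (q ^ 2) ^ N * q ^ 2 * 2 = (q ^ 2) ^ N * q * (q * 2) := by ring
        _ ≤ _ := this
    linarith

theorem wron_bd {al L b E : ℝ} (hb : L / 2 ≤ b) (hL : 4 * Real.exp (-(L / 2)) ≤ 1) (hE : 0 ≤ E)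
    {F h F' h' : ℝ → ℝ} {N : ℕ} (hN : 1 ≤ N) {x x' : ℝ} {v v' : ℤ → ℝ}
    (hv : Win al F h N x v) (hv' : Win al F' h' N x' v') (dv : Dec b v) (dv' : Dec b v')
    (hF : ∀ m : ℤ, |F (x + m * al) - F' (x' + m * al)| ≤ E)
    (hh : ∀ m : ℤ, |h (x + m * al) - h' (x' + m * al)| ≤ E) :
    |Jop al F h x v 0 - Jop al F' h' x' v' 0 - (F x - F' x')| ≤ 12 * E * Real.exp (-(L / 2)) := by
  set q : ℝ := Real.exp (-(L / 2)) with hq
  have q0 : 0 ≤ q := (Real.exp_pos _).le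
  have a1 : ∀ m, |v m| ≤ q ^ m.natAbs := dec_pow hb dv
  have a2 : ∀ m, |v' m| ≤ q ^ m.natAbs := dec_pow hb dv'
  obtain ⟨n, rfl⟩ : ∃ n, N = n + 1 := ⟨N - 1, by omega⟩
  have h0 : (0 : ℤ) ∈ Finset.Ioo (-((n + 1 : ℕ) : ℤ)) ((n + 1 : ℕ) : ℤ) := by
    rw [Finset.mem_Ioo]; push_cast; omega
  have h1 : ∑ m ∈ Finset.Ioo (-((n + 1 : ℕ) : ℤ)) ((n + 1 : ℕ) : ℤ), (F (x + m * al) - F' (x' + m * al)) * (v m * v' m) =
      (F x - F' x') + ∑ m ∈ Finset.Ioo (-((n + 1 : ℕ) : ℤ)) ((n + 1 : ℕ) : ℤ),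
        (if m = 0 then 0 else (F (x + m * al) - F' (x' + m * al)) * (v m * v' m)) := by
    rw [← Finset.add_sum_erase _ _ h0, ← Finset.add_sum_erase _ (fun m : ℤ => if m = 0 then (0 : ℝ) else _) h0,
      if_pos rfl, zero_add, hv.one, hv'.one]
    congr 1
    · simp
    · refine Finset.sum_congr rfl fun m hm => ?_
      rw [if_neg (Finset.ne_of_mem_erase hm)]
  rw [wron hv hv', h1]
  have h2 : |∑ m ∈ Finset.Ioo (-((n + 1 : ℕ) : ℤ)) ((n + 1 : ℕ) : ℤ),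
        (if m = 0 then 0 else (F (x + m * al) - F' (x' + m * al)) * (v m * v' m))| ≤ E * q := by
    calc _ ≤ ∑ m ∈ Finset.Ioo (-((n + 1 : ℕ) : ℤ)) ((n + 1 : ℕ) : ℤ),
          |(if m = 0 then 0 else (F (x + m * al) - F' (x' + m * al)) * (v m * v' m))| :=
          Finset.abs_sum_le_sum_abs _ _
      _ ≤ ∑ m ∈ Finset.Ioo (-((n + 1 : ℕ) : ℤ)) ((n + 1 : ℕ) : ℤ), E * (if m = 0 then 0 else q ^ (2 * m.natAbs)) := by
          refine Finset.sum_le_sum fun m _ => ?_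
          split_ifs with h
          · simp
          · rw [abs_mul, abs_mul]
            refine mul_le_mul (hF m) ?_ (by positivity) hE
            rw [two_mul, pow_add]
            exact mul_le_mul (a1 m) (a2 m) (abs_nonneg _) (by positivity)
      _ = E * ∑ m ∈ Finset.Ioo (-((n + 1 : ℕ) : ℤ)) ((n + 1 : ℕ) : ℤ), (if m = 0 then 0 else q ^ (2 * m.natAbs)) := by
          rw [Finset.mul_sum]
      _ ≤ E * (q * (1 - (q ^ 2) ^ n)) := mul_le_mul_of_nonneg_left (geo2 q0 hL n) hE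
      _ ≤ E * q := by
          refine mul_le_mul_of_nonneg_left ?_ hE
          have : 0 ≤ q * (q ^ 2) ^ n := by positivity
          linarith
  have h3 : |∑ m ∈ Finset.Ico (-((n + 1 : ℕ) : ℤ)) ((n + 1 : ℕ) : ℤ), (h (x + m * al) - h' (x' + m * al)) *
        (v (m + 1) * v' m + v m * v' (m + 1))| ≤ 2 * E * (3 * q) := by
    calc _ ≤ ∑ m ∈ Finset.Ico (-((n + 1 : ℕ) : ℤ)) ((n + 1 : ℕ) : ℤ), |(h (x + m * al) - h' (x' + m * al)) *
        (v (m + 1) * v' m + v m * v' (m + 1))| := Finset.abs_sum_le_sum_abs _ _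
      _ ≤ ∑ m ∈ Finset.Ico (-((n + 1 : ℕ) : ℤ)) ((n + 1 : ℕ) : ℤ), 2 * E * q ^ (m.natAbs + (m + 1).natAbs) := by
          refine Finset.sum_le_sum fun m _ => ?_
          rw [abs_mul, mul_comm 2 E, mul_assoc]
          refine mul_le_mul (hh m) ?_ (by positivity) hE
          refine (abs_add_le _ _).trans ?_
          rw [abs_mul, abs_mul, pow_add]
          have b1 := mul_le_mul (a1 (m + 1)) (a2 m) (abs_nonneg _) (by positivity)
          have b2 := mul_le_mul (a1 m) (a2 (m + 1)) (abs_nonneg _) (by positivity)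
          nlinarith
      _ = 2 * E * ∑ m ∈ Finset.Ico (-((n + 1 : ℕ) : ℤ)) ((n + 1 : ℕ) : ℤ), q ^ (m.natAbs + (m + 1).natAbs) := by
          rw [Finset.mul_sum]
      _ ≤ 2 * E * (32 / 15 * q * (1 - (q ^ 2) ^ (n + 1))) :=
          mul_le_mul_of_nonneg_left (geo1 q0 hL (n + 1)) (by positivity)
      _ ≤ 2 * E * (3 * q) := by
          refine mul_le_mul_of_nonneg_left ?_ (by positivity)
          have : 0 ≤ q * (q ^ 2) ^ (n + 1) := by positivity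
          linarith
  have h4 : 0 ≤ E * q := mul_nonneg hE q0
  rw [abs_le] at h2 h3 ⊢
  constructor <;> linarith [h2.1, h2.2, h3.1, h3.2]

end Pool.Agent.MP31f1e8.KLD
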