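import Pool.Agent.Lib.MP_31f1e8_mp.KLD.Bad

/-!
KLD-Good. The set of good energies has outer measure at least half of the length of the interval.

`Icc z1 z2 ⊆ (⋂ s, Gd s) ∪ ⋃ s, bad s`: if `z` is in `Icc z1 z2` and not in all `Gd s` take the least `j` with `¬ NR` at `j`; then `z ∈ Gd j`. Measure: `z2 - z1 ≤ volume (⋂) + ∑' s, 80 (C / c) mu / 2 ^ (s + 1) = volume (⋂) + 80 (C / c) mu`
(`measure_union_le`, `measure_iUnion_le`; `∑' 1 / 2 ^ (s + 1) = 1`: `ENNReal.ofReal` of `tsum_geometric_two`, or `ENNReal.tsum_geometric`), `80 (C / c) mu = (z2 - z1) / 2`.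
-/

namespace Pool.Agent.MP31f1e8.KLD

open Set MeasureTheory

variable {al c C L z1 z2 A1 A2 B1 B2 mu : ℝ} {F h : ℝ → ℝ → ℝ} {N : ℕ → ℕ}

theorem vol_good (hL : 0 < L) (H : Hyp c C L z1 z2 A1 A2 B1 B2 F h) (hS : Sc al L (c / (4 * C)) mu N)
    (hz : z1 < z2) (hmu : mu = c * (z2 - z1) / (160 * C)) :
    ENNReal.ofReal ((z2 - z1) / 2) ≤ volume (⋂ s, Gd al c C L z1 z2 A1 A2 B1 B2 N F h s) := by
  have hc := H.hc
  have hC : 0 < C := lt_of_lt_of_le hc H.hC
  have hK : 80 * (C / c) * mu = (z2 - z1) / 2 := by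
    rw [hmu]; field_simp; ring
  set G := fun s => Gd al c C L z1 z2 A1 A2 B1 B2 N F h s with hG
  set B := fun s => {z | z ∈ Gd al c C L z1 z2 A1 A2 B1 B2 N F h s ∧
      ¬ NR al (dl L N s) (N (s + 1)) (pseq al c C L A1 A2 B1 B2 N F h z s)} with hB
  have hsub : Icc z1 z2 ⊆ (⋂ s, G s) ∪ ⋃ s, B s := by
    intro z hzI
    by_cases hall : ∀ j, NR al (dl L N j) (N (j + 1)) (pseq al c C L A1 A2 B1 B2 N F h z j)
    · left
      rw [mem_iInter]
      intro s
      exact ⟨hzI, fun j _ => hall j⟩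
    · right
      push Not at hall
      classical
      rw [mem_iUnion]
      refine ⟨Nat.find hall, ⟨hzI, fun j hj => ?_⟩, Nat.find_spec hall⟩
      by_contra hcon
      exact Nat.find_min hall hj hcon
  have hsum : ∑' s : ℕ, volume (B s) ≤ ENNReal.ofReal ((z2 - z1) / 2) := by
    calc ∑' s : ℕ, volume (B s)
        ≤ ∑' s : ℕ, ENNReal.ofReal (80 * (C / c) * (mu / 2 ^ (s + 1))) :=
          ENNReal.tsum_le_tsum fun s => vol_bad hL H hS s
      _ = ENNReal.ofReal (∑' s : ℕ, (80 * (C / c) * (mu / 2 ^ (s + 1)))) := by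
          rw [ENNReal.ofReal_tsum_of_nonneg]
          · intro s
            have : 0 ≤ mu := by rw [hmu]; have := sub_pos.2 hz; positivity
            positivity
          · have h1 : Summable fun s : ℕ => (80 * (C / c) * mu / 2) * (1 / 2 : ℝ) ^ s :=
              summable_geometric_two.mul_left _
            refine h1.congr fun s => ?_
            rw [one_div, inv_pow, pow_succ]
            field_simp
      _ = ENNReal.ofReal ((z2 - z1) / 2) := by
          congr 1
          have h2 : ∀ s : ℕ, 80 * (C / c) * (mu / 2 ^ (s + 1)) = (80 * (C / c) * mu / 2) * (1 / 2 : ℝ) ^ s := by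
            intro s
            rw [one_div, inv_pow, pow_succ]
            field_simp
          simp_rw [h2]
          rw [tsum_mul_left, tsum_geometric_two, hK]
          ring
  have h3 : ENNReal.ofReal (z2 - z1) ≤ volume (⋂ s, G s) + ENNReal.ofReal ((z2 - z1) / 2) := by
    calc ENNReal.ofReal (z2 - z1) = volume (Icc z1 z2) := by rw [Real.volume_Icc]
      _ ≤ volume ((⋂ s, G s) ∪ ⋃ s, B s) := measure_mono hsub
      _ ≤ volume (⋂ s, G s) + volume (⋃ s, B s) := measure_union_le _ _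
      _ ≤ volume (⋂ s, G s) + ∑' s, volume (B s) := by
          gcongr
          exact measure_iUnion_le _
      _ ≤ _ := by gcongr
  have h4 : ENNReal.ofReal (z2 - z1) = ENNReal.ofReal ((z2 - z1) / 2) + ENNReal.ofReal ((z2 - z1) / 2) := by
    rw [← ENNReal.ofReal_add (by linarith) (by linarith)]
    congr 1
    ring
  rw [h4] at h3
  exact (ENNReal.add_le_add_iff_right ENNReal.ofReal_ne_top).1 h3

end Pool.Agent.MP31f1e8.KLD
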