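import Mathlib

/-!
KLD-Img. A lower bound for the outer measure of an image.

`f` is injective on `G` and its inverse is Lipschitz on `f '' G` with constant `1 / k`: `G = f⁻¹ '' (f '' G)`. `LipschitzOnWith.hausdorffMeasure_image_le` with dimension `1` and
`MeasureTheory.hausdorffMeasure_real` (`μH[1] = volume`): `volume G ≤ (1 / k) volume (f '' G)`.
-/

namespace Pool.Agent.MP31f1e8.KLD

open Set MeasureTheory

theorem vol_image {G : Set ℝ} {f : ℝ → ℝ} {k : ℝ} (hk : 0 < k)
    (hf : ∀ z ∈ G, ∀ z' ∈ G, k * |z - z'| ≤ |f z - f z'|) :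
    ENNReal.ofReal k * volume G ≤ volume (f '' G) := by
  classical
  obtain ⟨g, hg⟩ : ∃ g : ℝ → ℝ, g = Function.invFunOn f G := ⟨_, rfl⟩
  have hmem : ∀ y ∈ f '' G, g y ∈ G ∧ f (g y) = y := by
    intro y hy
    rw [hg]
    obtain ⟨z, hz, rfl⟩ := hy
    exact ⟨Function.invFunOn_mem ⟨z, hz, rfl⟩, Function.invFunOn_eq ⟨z, hz, rfl⟩⟩
  have hlip : LipschitzOnWith (Real.toNNReal (1 / k)) g (f '' G) := by
    apply LipschitzOnWith.of_dist_le_mul
    intro y hy y' hy'
    obtain ⟨h1, h2⟩ := hmem y hy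
    obtain ⟨h3, h4⟩ := hmem y' hy'
    have h5 := hf _ h1 _ h3
    rw [h2, h4] at h5
    rw [Real.dist_eq, Real.dist_eq, Real.coe_toNNReal _ (by positivity), one_div, inv_mul_eq_div,
      le_div_iff₀ hk]
    linarith
  have hsub : G ⊆ g '' (f '' G) := by
    intro z hz
    refine ⟨f z, ⟨z, hz, rfl⟩, ?_⟩
    obtain ⟨h1, h2⟩ := hmem (f z) ⟨z, hz, rfl⟩
    have h3 := hf _ h1 _ hz
    rw [h2, sub_self, abs_zero] at h3
    have h4 : |g (f z) - z| ≤ 0 := by
      by_contra hc
      push Not at hc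
      have := mul_pos hk hc
      linarith
    have h5 := abs_eq_zero.1 (le_antisymm h4 (abs_nonneg _))
    linarith
  have h1 := hlip.hausdorffMeasure_image_le (d := 1) zero_le_one
  rw [MeasureTheory.hausdorffMeasure_real, ENNReal.rpow_one] at h1
  have h2 : volume G ≤ (Real.toNNReal (1 / k) : ENNReal) * volume (f '' G) :=
    (measure_mono hsub).trans h1
  calc ENNReal.ofReal k * volume G
      ≤ ENNReal.ofReal k * ((Real.toNNReal (1 / k) : ENNReal) * volume (f '' G)) := by gcongr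
    _ = (ENNReal.ofReal k * ENNReal.ofReal (1 / k)) * volume (f '' G) := by
        rw [← mul_assoc]; rfl
    _ = volume (f '' G) := by
        rw [← ENNReal.ofReal_mul hk.le, mul_one_div_cancel hk.ne', ENNReal.ofReal_one, one_mul]

end Pool.Agent.MP31f1e8.KLD
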