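import Pool.Agent.Lib.MP_31f1e8_mp.KLD.Seq

/-!
KLD-Lim. The limit phase and the exponentially decaying solution.

Let `z ∈ ⋂ s, Gd s`, `p = pseq .. z`: `Chain .. s p` for all `s`. `a s = (p s).1`: `|a (s + 1) - a s| ≤ exp (-(L N_s)) ≤ dl s / 16`, `close`: `|a t - a s| ≤ dl s / 15` for `t ≥ s`, `dl s ≤ dl 0 / 16 ^ s → 0`: Cauchy, limit `x`.
Window solutions `u^s` at `a s` (`(hch.nxt (s - 1)).lev.za`, `s ≥ 1`) with `u^s 0 = 1`, `(J u^s)_m = 0` for ALL `|m| < N s`, `|u^s m| ≤ exp (-(bb s |m|)) ≤ exp (-(L / 2 |m|)) ≤ 1`. The sequences `u^s` lie in the compact set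
`Set.pi univ (fun m => Icc (-1) 1)` of `ℤ → ℝ` (`isCompact_univ_pi`; `IsCompact.tendsto_subseq`), a subsequence converges pointwise to `u`; `F z`, `h z` are continuous (`lipF`, `liph`), so
`Jop .. x u m = lim Jop .. (a s) (u^s) m = 0` (`N s → ∞`, `N_ge`).
-/

namespace Pool.Agent.MP31f1e8.KLD

open Set Filter Topology

variable {al c C L z1 z2 A1 A2 B1 B2 mu : ℝ} {F h : ℝ → ℝ → ℝ} {N : ℕ → ℕ}

private theorem lim_dl_pos (L : ℝ) (N : ℕ → ℕ) (j : ℕ) : 0 < dl L N j := Real.exp_pos _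

private theorem lim_dl_le (hS : Sc al L (c / (4 * C)) mu N) (j : ℕ) :
    dl L N j ≤ dl L N 0 * (1 / 16) ^ j := by
  induction j with
  | zero => simp
  | succ j ih =>
    have h1 := hS.small j
    calc dl L N (j + 1) ≤ dl L N j / 16 := h1
      _ ≤ (dl L N 0 * (1 / 16) ^ j) / 16 := by
        apply div_le_div_of_nonneg_right ih (by norm_num)
      _ = dl L N 0 * (1 / 16) ^ (j + 1) := by rw [pow_succ]; ring

private theorem lim_N_ge (hS : Sc al L (c / (4 * C)) mu N) (j : ℕ) : j + 1 ≤ N j := by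
  induction j with
  | zero => rw [hS.zero]
  | succ j ih =>
    have := hS.mono j
    omega

private theorem lim_bb (hL : 0 < L) (j : ℕ) : L / 2 ≤ bb L j := by
  unfold bb
  have : (0 : ℝ) < 1 / 2 ^ (j + 1) := by positivity
  nlinarith

theorem limit_sol (hL : 0 < L) (H : Hyp c C L z1 z2 A1 A2 B1 B2 F h) (hS : Sc al L (c / (4 * C)) mu N) {z : ℝ}
    (hz : z ∈ ⋂ s, Gd al c C L z1 z2 A1 A2 B1 B2 N F h s) :
    ∃ x : ℝ, Tendsto (fun s => (pseq al c C L A1 A2 B1 B2 N F h z s).1) atTop (𝓝 x) ∧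
      ∃ u : ℤ → ℝ, u 0 = 1 ∧ (∀ m : ℤ, |u m| ≤ Real.exp (-(L / 2 * |(m : ℝ)|))) ∧
        ∀ m : ℤ, Jop al (F z) (h z) x u m = 0 := by
  have hzI : z ∈ Icc z1 z2 := ((mem_iInter.1 hz) 0).1
  have hC0 : 0 ≤ C := H.hc.le.trans H.hC
  obtain ⟨P, hP⟩ : ∃ P : ℕ → ℝ × ℝ, P = pseq al c C L A1 A2 B1 B2 N F h z := ⟨_, rfl⟩
  have hnxt : ∀ j, Nxt al c L N (F z) (h z) j (P j) (P (j + 1)) := by
    intro j
    have h1 := chain_of_good hL H hS ((mem_iInter.1 hz) (j + 1))
    rw [hP]
    exact h1.nxt j (Nat.lt_succ_self j)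
  rw [← hP]
  -- the limit phase
  have hstep : ∀ j, dist ((P j).1) ((P (j + 1)).1) ≤ dl L N 0 / 16 * (1 / 16) ^ j := by
    intro j
    rw [Real.dist_eq, abs_sub_comm]
    have h1 := (hnxt j).d1
    have h2 := hS.gap j
    have h3 := lim_dl_le hS j
    have h4 : dl L N 0 / 16 * (1 / 16) ^ j = (dl L N 0 * (1 / 16) ^ j) / 16 := by ring
    rw [h4]
    linarith
  have hcau : CauchySeq (fun s => (P s).1) :=
    cauchySeq_of_le_geometric (1 / 16) (dl L N 0 / 16) (by norm_num) hstep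
  obtain ⟨x, hx⟩ := cauchySeq_tendsto_of_complete hcau
  refine ⟨x, hx, ?_⟩
  -- the window solutions
  choose v hvW hvD hv0 using fun j => (hnxt j).lev.za
  have hdec : ∀ j (m : ℤ), |v j m| ≤ Real.exp (-(L / 2 * |(m : ℝ)|)) := by
    intro j m
    refine (hvD j m).trans ?_
    apply Real.exp_le_exp.2
    have h1 := mul_le_mul_of_nonneg_right (lim_bb hL (j + 1)) (abs_nonneg (m : ℝ))
    linarith
  have hone : ∀ j (m : ℤ), |v j m| ≤ 1 := by
    intro j m
    refine (hdec j m).trans ?_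
    apply Real.exp_le_one_iff.2
    have : 0 ≤ L / 2 * |(m : ℝ)| := by positivity
    linarith
  have hcomp : IsCompact (Set.pi univ (fun _ : ℤ => Icc (-1 : ℝ) 1)) :=
    isCompact_univ_pi fun _ => isCompact_Icc
  obtain ⟨u, -, φ, hφ, hlim⟩ := hcomp.tendsto_subseq (x := v) (fun n => by
    intro m _
    exact abs_le.1 (hone n m))
  have hpt : ∀ m : ℤ, Tendsto (fun n => v (φ n) m) atTop (𝓝 (u m)) := fun m =>
    (tendsto_pi_nhds.1 hlim) m
  have hxa : Tendsto (fun n => (P (φ n + 1)).1) atTop (𝓝 x) :=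
    hx.comp ((tendsto_add_atTop_nat 1).comp hφ.tendsto_atTop)
  have hFc : Continuous (F z) := by
    have : LipschitzWith (Real.toNNReal C) (F z) := LipschitzWith.of_dist_le_mul (fun y y' => by
      rw [Real.dist_eq, Real.dist_eq, Real.coe_toNNReal C hC0]
      have := H.lipF z hzI z hzI y y'
      simpa using this)
    exact this.continuous
  have hhc : Continuous (h z) := by
    have : LipschitzWith (Real.toNNReal C) (h z) := LipschitzWith.of_dist_le_mul (fun y y' => by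
      rw [Real.dist_eq, Real.dist_eq, Real.coe_toNNReal C hC0]
      have := H.liph z hzI z hzI y y'
      simpa using this)
    exact this.continuous
  refine ⟨u, ?_, ?_, ?_⟩
  · refine tendsto_nhds_unique (hpt 0) ?_
    have : (fun n => v (φ n) 0) = fun _ => (1 : ℝ) := funext fun n => (hvW (φ n)).one
    rw [this]
    exact tendsto_const_nhds
  · intro m
    exact le_of_tendsto (hpt m).abs (Eventually.of_forall fun n => hdec (φ n) m)
  · intro m
    have hJ : Tendsto (fun n => Jop al (F z) (h z) (P (φ n + 1)).1 (v (φ n)) m) atTop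
        (𝓝 (Jop al (F z) (h z) x u m)) := by
      unfold Jop
      have e1 : Tendsto (fun n => F z ((P (φ n + 1)).1 + m * al)) atTop (𝓝 (F z (x + m * al))) :=
        (hFc.tendsto _).comp (hxa.add_const _)
      have e2 : Tendsto (fun n => h z ((P (φ n + 1)).1 + m * al)) atTop (𝓝 (h z (x + m * al))) :=
        (hhc.tendsto _).comp (hxa.add_const _)
      have e3 : Tendsto (fun n => h z ((P (φ n + 1)).1 + (m - 1) * al)) atTop
          (𝓝 (h z (x + (m - 1) * al))) :=
        (hhc.tendsto _).comp (hxa.add_const _)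
      exact ((e1.mul (hpt m)).sub (e2.mul (hpt (m + 1)))).sub (e3.mul (hpt (m - 1)))
    refine tendsto_nhds_unique hJ ?_
    have hev : ∀ᶠ n in atTop, Jop al (F z) (h z) (P (φ n + 1)).1 (v (φ n)) m = 0 := by
      filter_upwards [eventually_ge_atTop m.natAbs] with n hn
      by_cases hm : m = 0
      · rw [hm]; exact hv0 (φ n)
      · apply (hvW (φ n)).eq m hm
        have h1 := lim_N_ge hS (φ n + 1)
        have h2 := hφ.id_le n
        simp only [id] at h2
        have h3 : |m| = (m.natAbs : ℤ) := Int.abs_eq_natAbs m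
        rw [h3]
        have h4 : m.natAbs < N (φ n + 1) := by omega
        exact_mod_cast h4
    exact tendsto_const_nhds.congr' (hev.mono fun n hn => hn.symm)

end Pool.Agent.MP31f1e8.KLD
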