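import Pool.Agent.Lib.MP_31f1e8_mp.KLD.Defs

/-!
KLD-Scale. Existence of the scales.

Write `x_j = N_j / 2 ^ (j + 3)`, `dl j = exp (-(L x_j))` (`rr L j N_j = L x_j`). Given `N_j`, let `D = exp (L x_j)`, `Q = ⌊D ^ (1/4)⌋` (`= ⌊exp (L x_j / 4)⌋₊ ≥ 1`); Dirichlet (`Real.exists_int_int_abs_mul_sub_le` / `Real.exists_nat_abs_mul_sub_round_le`):
`N_{j+1} = k`, `0 < k ≤ Q`, `|k al - round (k al)| ≤ 1 / (Q + 1) ≤ exp (-(L x_j / 4))`. By `Dio`: `gam / k ^ 2 ≤ exp (-(L x_j / 4))`, so `N_{j+1} ^ 2 ≥ gam exp (L x_j / 4)`.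
The bounds follow from `exp y ≥ 1 + y` and `exp y ≥ y ^ 5 / 120`.
-/

namespace Pool.Agent.MP31f1e8.KLD

private theorem Scale_step {gam al : ℝ} (h : Dio gam al) (t : ℝ) (ht : 0 ≤ t) :
    ∃ k : ℕ, 0 < k ∧ (k : ℝ) ≤ Real.exp (t / 4) ∧
      (∃ l : ℤ, |(k : ℝ) * al - l| ≤ Real.exp (-(t / 4))) ∧
      gam * Real.exp (t / 4) ≤ (k : ℝ) ^ 2 := by
  have hQ : 0 < ⌊Real.exp (t / 4)⌋₊ := by
    apply Nat.floor_pos.2
    exact Real.one_le_exp (by positivity)
  obtain ⟨k, hk0, hkQ, hk⟩ := Real.exists_nat_abs_mul_sub_round_le al hQ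
  have hE : 0 < Real.exp (t / 4) := Real.exp_pos _
  have h1 : (k : ℝ) ≤ Real.exp (t / 4) :=
    (Nat.cast_le.2 hkQ).trans (Nat.floor_le hE.le)
  have h2 : (1 : ℝ) / ((⌊Real.exp (t / 4)⌋₊ : ℝ) + 1) ≤ Real.exp (-(t / 4)) := by
    rw [Real.exp_neg, ← one_div]
    exact one_div_le_one_div_of_le hE (Nat.lt_floor_add_one _).le
  have h3 : |(k : ℝ) * al - round ((k : ℝ) * al)| ≤ Real.exp (-(t / 4)) := hk.trans h2
  refine ⟨k, hk0, h1, ⟨_, h3⟩, ?_⟩
  have hkR : (0 : ℝ) < k := Nat.cast_pos.2 hk0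
  have h4 := h (k : ℤ) (by exact_mod_cast hk0.ne') (round ((k : ℝ) * al))
  have h5 : gam / (k : ℝ) ^ 2 ≤ Real.exp (-(t / 4)) := by
    refine le_trans ?_ h3
    simpa using h4
  have h6 : gam ≤ Real.exp (-(t / 4)) * (k : ℝ) ^ 2 := by
    rwa [div_le_iff₀ (by positivity)] at h5
  calc gam * Real.exp (t / 4) ≤ Real.exp (-(t / 4)) * (k : ℝ) ^ 2 * Real.exp (t / 4) :=
        mul_le_mul_of_nonneg_right h6 hE.le
    _ = (k : ℝ) ^ 2 := by
        rw [Real.exp_neg]
        field_simp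

private theorem Scale_exp {t c : ℝ} (n : ℝ) (h : c ≤ n * t + 1) :
    c ≤ Real.exp (n * t) := h.trans (Real.add_one_le_exp _)

theorem exists_scales {gam d1 mu : ℝ} (hg : 0 < gam) (hd : 0 < d1) (hmu : 0 < mu) :
    ∃ L0 : ℝ, 0 < L0 ∧ ∀ L, L0 ≤ L → ∀ al, Dio gam al → ∃ N : ℕ → ℕ, Sc al L d1 mu N := by
  have hK : (0 : ℝ) < 5000000000000 / gam := by positivity
  have hK2 : (0 : ℝ) < 8 / d1 := by positivity
  have hK3 : (0 : ℝ) < 64 / mu := by positivity
  refine ⟨24 + 5000000000000 / gam + 8 / d1 + 64 / mu, by positivity, ?_⟩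
  intro L hL al hal
  have hL24 : 24 ≤ L := by linarith
  have hLg : 5000000000000 ≤ gam * L := by
    have : 5000000000000 / gam ≤ L := by linarith
    rwa [div_le_iff₀ hg, mul_comm] at this
  have hLd : 8 ≤ d1 * L := by
    have : 8 / d1 ≤ L := by linarith
    rwa [div_le_iff₀ hd, mul_comm] at this
  have hLm : 64 ≤ mu * L := by
    have : 64 / mu ≤ L := by linarith
    rwa [div_le_iff₀ hmu, mul_comm] at this
  have hL0 : 0 < L := by linarith
  have hrr : ∀ (j n : ℕ), 0 ≤ rr L j * n := by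
    intro j n
    unfold rr
    positivity
  choose st st0 st1 st2 st3 using fun (j n : ℕ) => Scale_step hal (rr L j * n) (hrr j n)
  set N : ℕ → ℕ := fun j => Nat.rec 1 (fun j n => st j n) j with hN
  have N0 : N 0 = 1 := rfl
  have Ns : ∀ j, N (j + 1) = st j (N j) := fun j => rfl
  have p0 : ∀ j, 0 < N j := by
    intro j
    cases j with
    | zero => rw [N0]; exact one_pos
    | succ j => rw [Ns]; exact st0 _ _
  have p1 : ∀ j, (N (j + 1) : ℝ) ≤ Real.exp (rr L j * N j / 4) := fun j => by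
    rw [Ns]; exact st1 _ _
  have p2 : ∀ j, ∃ l : ℤ, |(N (j + 1) : ℝ) * al - l| ≤ Real.exp (-(rr L j * N j / 4)) := fun j => by
    rw [Ns]; exact st2 _ _
  have p3 : ∀ j, gam * Real.exp (rr L j * N j / 4) ≤ (N (j + 1) : ℝ) ^ 2 := fun j => by
    rw [Ns]; exact st3 _ _
  -- `x j = N j / 2 ^ (j + 3)`
  set x : ℕ → ℝ := fun j => (N j : ℝ) / 2 ^ (j + 3) with hx
  have tx : ∀ j, rr L j * N j = L * x j := by
    intro j
    simp only [hx, rr]
    ring
  have xN : ∀ j, (N j : ℝ) = 2 ^ (j + 3) * x j := by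
    intro j
    simp only [hx]
    field_simp
  have key : ∀ j, 2 ^ j / 8 ≤ x j → 16 * x j ≤ x (j + 1) := by
    intro j hj
    have hxj : 1 / 8 ≤ x j := by
      refine le_trans ?_ hj
      have : (1 : ℝ) ≤ 2 ^ j := one_le_pow₀ (by norm_num)
      linarith
    have hxp : 0 < x j := by linarith
    have h1 := p3 j
    rw [tx] at h1
    have h2 := Real.pow_div_factorial_le_exp (x := L * x j / 4) (by positivity) 5
    have h3 : gam * ((L * x j / 4) ^ 5 / (Nat.factorial 5 : ℕ)) ≤ (N (j + 1) : ℝ) ^ 2 :=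
      (mul_le_mul_of_nonneg_left h2 hg.le).trans h1
    have h4 : (2048 * x j ^ 2) ^ 2 ≤ gam * ((L * x j / 4) ^ 5 / (Nat.factorial 5 : ℕ)) := by
      have e1 : ((Nat.factorial 5 : ℕ) : ℝ) = 120 := by norm_num [Nat.factorial]
      rw [e1]
      have e2 : (24 : ℝ) ^ 4 ≤ L ^ 4 := pow_le_pow_left₀ (by norm_num) hL24 4
      have e3 : (5000000000000 : ℝ) * 24 ^ 4 ≤ gam * L * L ^ 4 :=
        mul_le_mul hLg e2 (by positivity) (by positivity)
      have e4 : gam * ((L * x j / 4) ^ 5 / 120) = (gam * L * L ^ 4) * x j ^ 4 * x j / 122880 := by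
        ring
      rw [e4]
      have e5 : (5000000000000 : ℝ) * 24 ^ 4 * x j ^ 4 * (1 / 8) / 122880 ≤
          (gam * L * L ^ 4) * x j ^ 4 * x j / 122880 := by
        apply div_le_div_of_nonneg_right _ (by norm_num)
        exact mul_le_mul (mul_le_mul_of_nonneg_right e3 (by positivity)) hxj (by norm_num)
          (by positivity)
      refine le_trans ?_ e5
      have e6 : 0 ≤ x j ^ 4 := by positivity
      nlinarith
    have h5 : (2048 * x j ^ 2) ^ 2 ≤ (N (j + 1) : ℝ) ^ 2 := h4.trans h3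
    have h6 : 2048 * x j ^ 2 ≤ (N (j + 1) : ℝ) := by
      exact (pow_le_pow_iff_left₀ (by positivity) (by positivity) two_ne_zero).1 h5
    have h7 : (2 : ℝ) ^ j ≤ 8 * x j := by linarith
    have h8 : 16 * x j * 2 ^ (j + 1 + 3) ≤ (N (j + 1) : ℝ) := by
      refine le_trans ?_ h6
      have e7 : 16 * x j * 2 ^ (j + 1 + 3) = 256 * x j * 2 ^ j := by ring
      rw [e7]
      nlinarith
    show 16 * x j ≤ (N (j + 1) : ℝ) / 2 ^ (j + 1 + 3)
    rw [le_div_iff₀ (by positivity)]
    exact h8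
  have low : ∀ j, 2 ^ j / 8 ≤ x j := by
    intro j
    induction j with
    | zero =>
      simp only [hx, N0]
      norm_num
    | succ j ih =>
      have h1 := key j ih
      have h2 : (0 : ℝ) < 2 ^ j := by positivity
      rw [pow_succ]
      linarith
  have low1 : ∀ j, 1 / 8 ≤ x j := by
    intro j
    refine le_trans ?_ (low j)
    have : (1 : ℝ) ≤ 2 ^ j := one_le_pow₀ (by norm_num)
    linarith
  have t3 : ∀ j, 3 ≤ L * x j := by
    intro j
    have h1 := low1 j
    nlinarith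
  refine ⟨N, N0, ?_, ?_, ?_, ?_, ?_, ?_, ?_⟩
  · intro j
    have h1 := key j (low j)
    have h2 := xN j
    have h3 := xN (j + 1)
    have h4 : (0 : ℝ) < N j := Nat.cast_pos.2 (p0 j)
    have h5 : (N (j + 1) : ℝ) ≥ 32 * N j := by
      rw [h3, h2]
      have e1 : (2 : ℝ) ^ (j + 1 + 3) = 2 * 2 ^ (j + 3) := by ring
      rw [e1]
      have e2 : (0 : ℝ) < 2 ^ (j + 3) := by positivity
      nlinarith
    have h6 : (N j : ℝ) < N (j + 1) := by linarith
    exact_mod_cast h6
  · intro j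
    obtain ⟨l, hl⟩ := p2 (j + 1)
    refine ⟨l, hl.trans ?_⟩
    unfold dl
    rw [tx, tx]
    have h1 := key j (low j)
    have h2 := t3 j
    have h3 : Real.exp (-(L * x (j + 1) / 4)) ≤ Real.exp (-(L * x j) - 1) := by
      apply Real.exp_le_exp.2
      nlinarith
    refine h3.trans ?_
    rw [sub_eq_add_neg, Real.exp_add]
    have h4 : Real.exp (-1) ≤ 1 / 2 := by
      rw [Real.exp_neg, ← one_div]
      apply one_div_le_one_div_of_le (by norm_num)
      have := Real.add_one_le_exp (1 : ℝ)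
      linarith
    have h5 : 0 < Real.exp (-(L * x j)) := Real.exp_pos _
    nlinarith
  · intro j k hk hkN l
    refine le_trans ?_ (hal k hk l)
    have hk2 : (0 : ℝ) < (k : ℝ) ^ 2 := by
      have : (k : ℝ) ≠ 0 := by exact_mod_cast hk
      positivity
    rw [le_div_iff₀ hk2]
    have h1 : (k : ℝ) ^ 2 ≤ (N (j + 1) : ℝ) ^ 2 := by
      have h2 : |(k : ℝ)| ≤ (N (j + 1) : ℝ) := by exact_mod_cast hkN
      rw [← sq_abs (k : ℝ)]
      exact pow_le_pow_left₀ (abs_nonneg _) h2 2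
    have h2 : (N (j + 1) : ℝ) ^ 2 ≤ Real.exp (L * x j / 2) := by
      have h3 := p1 j
      rw [tx] at h3
      calc (N (j + 1) : ℝ) ^ 2 ≤ Real.exp (L * x j / 4) ^ 2 := pow_le_pow_left₀ (by positivity) h3 2
        _ = Real.exp (L * x j / 2) := by
          rw [← Real.exp_nat_mul]
          congr 1
          push_cast
          ring
    unfold dl
    rw [tx]
    have h4 : 5 * Real.exp (-(L * x j)) * (k : ℝ) ^ 2 ≤
        5 * Real.exp (-(L * x j)) * Real.exp (L * x j / 2) :=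
      mul_le_mul_of_nonneg_left (h1.trans h2) (by positivity)
    refine h4.trans ?_
    rw [mul_assoc, ← Real.exp_add, show -(L * x j) + L * x j / 2 = -(L * x j / 2) by ring,
      Real.exp_neg, ← div_eq_mul_inv, div_le_iff₀ (Real.exp_pos _)]
    have h5 : L * x j / 2 ≤ Real.exp (L * x j / 2) := by
      have := Real.add_one_le_exp (L * x j / 2)
      linarith
    have h6 : gam * (L * x j / 2) ≤ gam * Real.exp (L * x j / 2) :=
      mul_le_mul_of_nonneg_left h5 hg.le
    refine le_trans ?_ h6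
    have h7 := low1 j
    have h8 : 5000000000000 * (1 / 8 : ℝ) ≤ gam * L * x j := mul_le_mul hLg h7 (by norm_num) (by positivity)
    nlinarith
  · intro j
    unfold dl
    rw [tx, tx]
    have h1 := key j (low j)
    have h2 := t3 j
    have h3 : Real.exp (-(L * x (j + 1))) ≤ Real.exp (-(L * x j) - 15) := by
      apply Real.exp_le_exp.2
      nlinarith
    refine h3.trans ?_
    rw [sub_eq_add_neg, Real.exp_add]
    have h4 : Real.exp (-15) ≤ 1 / 16 := by
      rw [Real.exp_neg, ← one_div]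
      apply one_div_le_one_div_of_le (by norm_num)
      have := Real.add_one_le_exp (15 : ℝ)
      linarith
    have h5 : 0 < Real.exp (-(L * x j)) := Real.exp_pos _
    nlinarith
  · unfold dl
    rw [tx]
    have e0 : x 0 = 1 / 8 := by
      simp only [hx, N0]
      norm_num
    rw [e0, Real.exp_neg, ← one_div, div_le_iff₀ (Real.exp_pos _)]
    have h1 : L * (1 / 8) ≤ Real.exp (L * (1 / 8)) := by
      have := Real.add_one_le_exp (L * (1 / 8))
      linarith
    have h2 := mul_le_mul_of_nonneg_left h1 hd.le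
    linarith
  · intro j
    unfold dl
    rw [tx]
    have h1 := xN j
    have h2 := t3 j
    have h0 : (8 : ℝ) ≤ 2 ^ (j + 3) := by
      have : (1 : ℝ) ≤ 2 ^ j := one_le_pow₀ (by norm_num)
      rw [pow_add]
      linarith
    have h3 : 8 * (L * x j) ≤ L * N j := by
      rw [h1]
      have : L * (2 ^ (j + 3) * x j) = 2 ^ (j + 3) * (L * x j) := by ring
      rw [this]
      exact mul_le_mul_of_nonneg_right h0 (by linarith)
    have h4 : Real.exp (-(L * N j)) ≤ Real.exp (-(L * x j) - 15) := by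
      apply Real.exp_le_exp.2
      linarith
    have h5 : Real.exp (-15) ≤ 1 / 16 := by
      rw [Real.exp_neg, ← one_div]
      apply one_div_le_one_div_of_le (by norm_num)
      have := Real.add_one_le_exp (15 : ℝ)
      linarith
    rw [sub_eq_add_neg, Real.exp_add] at h4
    have h6 : 0 < Real.exp (-(L * x j)) := Real.exp_pos _
    nlinarith
  · intro j
    unfold dl
    have h1 := p1 j
    rw [tx] at h1 ⊢
    have h2 := t3 j
    have hE : 1 ≤ Real.exp (L * x j / 4) := Real.one_le_exp (by linarith)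
    have h3 : 2 * (N (j + 1) : ℝ) + 1 ≤ 3 * Real.exp (L * x j / 4) := by linarith
    rw [le_div_iff₀ (by positivity)]
    have h4 : (2 * (N (j + 1) : ℝ) + 1) * Real.exp (-(L * x j)) ≤ 3 * Real.exp (-(3 * (L * x j) / 4)) := by
      calc (2 * (N (j + 1) : ℝ) + 1) * Real.exp (-(L * x j))
          ≤ 3 * Real.exp (L * x j / 4) * Real.exp (-(L * x j)) :=
            mul_le_mul_of_nonneg_right h3 (Real.exp_pos _).le
        _ = 3 * Real.exp (-(3 * (L * x j) / 4)) := by
            rw [mul_assoc, ← Real.exp_add]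
            congr 2
            ring
    have h5 : 3 * Real.exp (-(3 * (L * x j) / 4)) * 2 ^ (j + 1) ≤ mu := by
      rw [Real.exp_neg, ← div_eq_mul_inv, div_mul_eq_mul_div, div_le_iff₀ (Real.exp_pos _)]
      have h6 : 3 * (L * x j) / 4 ≤ Real.exp (3 * (L * x j) / 4) := by
        have := Real.add_one_le_exp (3 * (L * x j) / 4)
        linarith
      refine le_trans ?_ (mul_le_mul_of_nonneg_left h6 hmu.le)
      have h7 := low j
      have h8 : (64 : ℝ) * (2 ^ j / 8) ≤ mu * L * x j := mul_le_mul hLm h7 (by positivity) (by positivity)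
      rw [pow_succ]
      linarith
    refine le_trans ?_ h5
    exact mul_le_mul_of_nonneg_right h4 (by positivity)

end Pool.Agent.MP31f1e8.KLD
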