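import Pool.Agent.Lib.MP_31f1e8_mp.KLD.Good
import Pool.Agent.Lib.MP_31f1e8_mp.KLD.Lim
import Pool.Agent.Lib.MP_31f1e8_mp.KLD.Img
import Pool.Agent.Lib.MP_31f1e8_mp.KLD.Clos
import Pool.Agent.Lib.MP_31f1e8_mp.KLD.Scale

/-!
KLD-Main. The abstract localisation theorem.
-/

namespace Pool.Agent.MP31f1e8.KLD

open Set MeasureTheory Filter Topology

/-- Quasi-periodic Jacobi equation with two monotone branches: for `L` large (depending on `c`, `C`, the Diophantine constant `gam` and the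
length `len` of the energy interval) the set of the phases with an exponentially decaying solution at some energy is
closed and has measure at least `c / (8 C) len` in the arc `[A1, A2]`. -/
theorem main {c C gam len : ℝ} (hc : 0 < c) (hC : c ≤ C) (hg : 0 < gam) (hlen : 0 < len) :
    ∃ L0 : ℝ, 0 < L0 ∧ ∀ L, L0 ≤ L → ∀ al, Dio gam al → ∀ z1 z2 A1 A2 B1 B2 : ℝ, ∀ F h : ℝ → ℝ → ℝ,
      z2 - z1 = len → Hyp c C L z1 z2 A1 A2 B1 B2 F h →
      IsClosed (Loc al L z1 z2 F h) ∧
        ENNReal.ofReal (c / (8 * C) * len) ≤ volume (Loc al L z1 z2 F h ∩ Icc A1 A2) := by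
  have hC0 : 0 < C := hc.trans_le hC
  obtain ⟨L0, hL0, hsc⟩ := exists_scales (d1 := c / (4 * C)) (mu := c * len / (160 * C)) hg
    (by positivity) (by positivity)
  refine ⟨L0, hL0, fun L hLL al hal z1 z2 A1 A2 B1 B2 F h hz H => ⟨loc_closed H, ?_⟩⟩
  have hL : 0 < L := hL0.trans_le hLL
  obtain ⟨N, hS⟩ := hsc L hLL al hal
  have hgood := vol_good hL H hS (by linarith) (by rw [hz])
  set G := ⋂ s, Gd al c C L z1 z2 A1 A2 B1 B2 N F h s with hG
  have hlim := fun z (hz : z ∈ G) => limit_sol hL H hS hz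
  choose! f hf1 hf2 using hlim
  have hGs : ∀ z ∈ G, ∀ s, z ∈ Gd al c C L z1 z2 A1 A2 B1 B2 N F h s := fun z hz s => mem_iInter.1 hz s
  have hGI : ∀ z ∈ G, z ∈ Icc z1 z2 := fun z hz => (hGs z hz 0).1
  have key : ∀ z ∈ G, ∀ z' ∈ G, z < z' → c / (4 * C) * (z' - z) ≤ f z' - f z := by
    intro z hz z' hz' hlt
    refine ge_of_tendsto' ((hf1 z' hz').sub (hf1 z hz)) fun s => ?_
    exact (mono_z hL H hS (hGI z hz).1 hlt (hGI z' hz').2 (chain_of_good hL H hS (hGs z hz s))
      (chain_of_good hL H hS (hGs z' hz' s))).1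
  have hk : 0 < c / (4 * C) := by positivity
  have himg := vol_image (G := G) (f := f) hk (by
    intro z hz z' hz'
    rcases lt_trichotomy z z' with hlt | rfl | hlt
    · have h1 := key z hz z' hz' hlt
      rw [abs_sub_comm z z', abs_of_pos (sub_pos.2 hlt), abs_sub_comm]
      exact h1.trans (le_abs_self _)
    · simp
    · have h1 := key z' hz' z hz hlt
      rw [abs_of_pos (sub_pos.2 hlt)]
      exact h1.trans (le_abs_self _))
  have hsub : f '' G ⊆ Loc al L z1 z2 F h ∩ Icc A1 A2 := by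
    rintro x ⟨z, hz, rfl⟩
    refine ⟨⟨z, hGI z hz, hf2 z hz⟩, ?_, ?_⟩
    · refine ge_of_tendsto' (hf1 z hz) fun s => ?_
      have := (arcs hc hC hS (chain_of_good hL H hS (hGs z hz s))).1.1
      linarith [dl_pos L N s]
    · refine le_of_tendsto' (hf1 z hz) fun s => ?_
      have := (arcs hc hC hS (chain_of_good hL H hS (hGs z hz s))).1.2
      linarith [dl_pos L N s]
  calc ENNReal.ofReal (c / (8 * C) * len) = ENNReal.ofReal (c / (4 * C)) * ENNReal.ofReal ((z2 - z1) / 2) := by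
        rw [← ENNReal.ofReal_mul hk.le, hz]
        congr 1
        field_simp
        ring
    _ ≤ ENNReal.ofReal (c / (4 * C)) * volume G := by gcongr
    _ ≤ volume (f '' G) := himg
    _ ≤ _ := measure_mono hsub

end Pool.Agent.MP31f1e8.KLD
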