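import Pool.Agent.Lib.MP_31f1e8_mp.KLD.Defs

/-!
KLD-Maxp. Weighted maximum principle. Let `M` be the maximum of `w m * exp (b m)` over `0 ≤ m ≤ N`, attained at `m`. If `0 < m < N` then
`w m exp (b m) ≤ exp (-(b' r)) exp (b m) max (w (m - r)) (w (m + r)) ≤ exp (-(b' r)) exp (b r) M < M` if `M > 0`
(`w (m - r) ≤ M exp (-(b (m - r)))`, `w (m + r) ≤ M exp (-(b (m + r))) ≤ M exp (-(b (m - r)))`), a contradiction. So `m = 0` or `m = N` (then `M = 0`) or `M = 0`.
-/

namespace Pool.Agent.MP31f1e8.KLD

theorem maxp {b : ℝ} (hb : 0 ≤ b) (N : ℕ) (w : ℕ → ℝ) (hw : ∀ m, 0 ≤ w m) (hN : w N = 0)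
    (h : ∀ m, 0 < m → m < N → ∃ r : ℕ, 1 ≤ r ∧ r ≤ m ∧ m + r ≤ N ∧ ∃ b' : ℝ, b < b' ∧
      w m ≤ Real.exp (-(b' * r)) * max (w (m - r)) (w (m + r))) (m : ℕ) (hm : m ≤ N) :
    w m ≤ Real.exp (-(b * m)) * w 0 := by
  obtain ⟨k, hk, hmax⟩ := Finset.exists_max_image (Finset.range (N + 1))
    (fun m : ℕ => w m * Real.exp (b * m)) ⟨0, by simp⟩
  have hkN : k ≤ N := by have := Finset.mem_range.1 hk; omega
  have hmax' : ∀ j, j ≤ N → w j * Real.exp (b * j) ≤ w k * Real.exp (b * k) := fun j hj =>
    hmax j (Finset.mem_range.2 (by omega))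
  have hRHS : 0 ≤ Real.exp (-(b * m)) * w 0 := mul_nonneg (Real.exp_pos _).le (hw 0)
  -- if the maximum is not positive, everything vanishes
  have hzero : w k * Real.exp (b * k) ≤ 0 → w m ≤ Real.exp (-(b * m)) * w 0 := by
    intro h0
    have h1 := (hmax' m hm).trans h0
    have h2 : w m ≤ 0 := by
      by_contra hlt
      push Not at hlt
      have := mul_pos hlt (Real.exp_pos (b * m))
      linarith
    exact h2.trans hRHS
  rcases Nat.eq_zero_or_pos k with h0 | hpos
  · subst h0
    have h1 := hmax' m hm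
    rw [Nat.cast_zero, mul_zero, Real.exp_zero, mul_one] at h1
    have h2 : w m = Real.exp (-(b * m)) * (w m * Real.exp (b * m)) := by
      rw [mul_comm (w m), ← mul_assoc, ← Real.exp_add]
      simp
    rw [h2]
    exact mul_le_mul_of_nonneg_left h1 (Real.exp_pos _).le
  · rcases Nat.lt_or_ge k N with hlt | hge
    · rcases le_or_gt (w k * Real.exp (b * k)) 0 with hM | hM
      · exact hzero hM
      · exfalso
        obtain ⟨r, hr1, hrk, hrN, b', hb', hle⟩ := h k hpos hlt
        have hr1' : (1 : ℝ) ≤ r := by exact_mod_cast hr1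
        set M := w k * Real.exp (b * k) with hMdef
        have hL : w (k - r) ≤ M * Real.exp (-(b * ((k : ℝ) - r))) := by
          have h1 := hmax' (k - r) (by omega)
          rw [Nat.cast_sub hrk] at h1
          have h2 : w (k - r) = w (k - r) * Real.exp (b * ((k : ℝ) - r)) * Real.exp (-(b * ((k : ℝ) - r))) := by
            rw [mul_assoc, ← Real.exp_add]; simp
          rw [h2]
          exact mul_le_mul_of_nonneg_right h1 (Real.exp_pos _).le
        have hR : w (k + r) ≤ M * Real.exp (-(b * ((k : ℝ) - r))) := by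
          have h1 := hmax' (k + r) hrN
          rw [Nat.cast_add] at h1
          have h2 : w (k + r) = w (k + r) * Real.exp (b * ((k : ℝ) + r)) * Real.exp (-(b * ((k : ℝ) + r))) := by
            rw [mul_assoc, ← Real.exp_add]; simp
          have h3 : w (k + r) ≤ M * Real.exp (-(b * ((k : ℝ) + r))) := by
            rw [h2]
            exact mul_le_mul_of_nonneg_right h1 (Real.exp_pos _).le
          refine h3.trans (mul_le_mul_of_nonneg_left (Real.exp_le_exp.2 ?_) hM.le)
          have : 0 ≤ b * r := mul_nonneg hb (by linarith)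
          nlinarith
        have h4 : w k ≤ Real.exp (-(b' * r)) * (M * Real.exp (-(b * ((k : ℝ) - r)))) :=
          hle.trans (mul_le_mul_of_nonneg_left (max_le hL hR) (Real.exp_pos _).le)
        have h5 : M ≤ Real.exp (-(b' * r)) * (M * Real.exp (-(b * ((k : ℝ) - r)))) * Real.exp (b * k) :=
          mul_le_mul_of_nonneg_right h4 (Real.exp_pos _).le
        have h6 : Real.exp (-(b' * r)) * (M * Real.exp (-(b * ((k : ℝ) - r)))) * Real.exp (b * k) =
            M * Real.exp (-((b' - b) * r)) := by
          have h7 : Real.exp (-(b' * r)) * (M * Real.exp (-(b * ((k : ℝ) - r)))) * Real.exp (b * k) =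
              M * (Real.exp (-(b' * r)) * Real.exp (-(b * ((k : ℝ) - r))) * Real.exp (b * k)) := by ring
          rw [h7, ← Real.exp_add, ← Real.exp_add]
          congr 2
          ring
        rw [h6] at h5
        have h8 : Real.exp (-((b' - b) * r)) < 1 := by
          rw [Real.exp_lt_one_iff]
          have : 0 < (b' - b) * r := mul_pos (by linarith) (by linarith)
          linarith
        nlinarith
    · have hkN' : k = N := le_antisymm hkN hge
      apply hzero
      rw [hkN', hN, zero_mul]

end Pool.Agent.MP31f1e8.KLD
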