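import Pool.Agent.Lib.MP_31f1e8_mp.KLD.Defs

/-!
KLD-Pair. Pairing identities (summation by parts).
-/

namespace Pool.Agent.MP31f1e8.KLD

open Set

private theorem telesc (W : ℤ → ℝ) (a : ℤ) (n : ℕ) :
    ∑ m ∈ Finset.Ico a (a + n), (W (m - 1) - W m) = W (a - 1) - W (a + n - 1) := by
  induction n with
  | zero => simp
  | succ n ih =>
    have h1 : Finset.Ico a (a + ((n + 1 : ℕ) : ℤ)) = insert (a + n) (Finset.Ico a (a + n)) := by
      ext m
      simp only [Finset.mem_insert, Finset.mem_Ico]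
      push_cast
      omega
    rw [h1, Finset.sum_insert (by simp), ih]
    have e1 : a + ((n + 1 : ℕ) : ℤ) - 1 = a + n := by push_cast; ring
    rw [e1]
    ring

private theorem Ioo_eq {N : ℕ} (hN : 1 ≤ N) :
    Finset.Ioo (-(N : ℤ)) N = Finset.Ico (-(N : ℤ) + 1) (-(N : ℤ) + 1 + ((2 * N - 1 : ℕ) : ℤ)) := by
  ext m
  simp only [Finset.mem_Ioo, Finset.mem_Ico]
  omega

private theorem sum_zero {N : ℕ} (hN : 1 ≤ N) (f : ℤ → ℝ) (hf : ∀ m : ℤ, m ≠ 0 → |m| < N → f m = 0) :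
    ∑ m ∈ Finset.Ioo (-(N : ℤ)) N, f m = f 0 := by
  refine Finset.sum_eq_single_of_mem 0 ?_ ?_
  · rw [Finset.mem_Ioo]; omega
  · intro m hm h0
    rw [Finset.mem_Ioo] at hm
    exact hf m h0 (abs_lt.2 hm)

/-- Pairing with a window solution. -/
theorem pair {al : ℝ} {F h : ℝ → ℝ} {N : ℕ} (hN : 1 ≤ N) {x : ℝ} {v : ℤ → ℝ} (hv : Win al F h N x v)
    (u : ℤ → ℝ) :
    ∑ m ∈ Finset.Ioo (-(N : ℤ)) N, v m * Jop al F h x u m =
      u 0 * Jop al F h x v 0 - h (x + (N - 1) * al) * v (N - 1) * u N -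
        h (x - N * al) * v (1 - N) * u (-N) := by
  have h1 := telesc (fun m => h (x + m * al) * (v m * u (m + 1) - u m * v (m + 1)))
    (-(N : ℤ) + 1) (2 * N - 1)
  rw [← Ioo_eq hN] at h1
  have h2 : ∀ m : ℤ, v m * Jop al F h x u m = u m * Jop al F h x v m +
      (h (x + ((m - 1 : ℤ) : ℝ) * al) * (v (m - 1) * u (m - 1 + 1) - u (m - 1) * v (m - 1 + 1)) -
        h (x + m * al) * (v m * u (m + 1) - u m * v (m + 1))) := by
    intro m
    unfold Jop
    push_cast
    rw [sub_add_cancel]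
    ring
  rw [Finset.sum_congr rfl fun m _ => h2 m, Finset.sum_add_distrib, h1,
    sum_zero hN (fun m => u m * Jop al F h x v m) fun m h0 hm => by
      rw [hv.eq m h0 hm, mul_zero]]
  have e1 : -(N : ℤ) + 1 + ((2 * N - 1 : ℕ) : ℤ) - 1 = N - 1 := by omega
  have e2 : -(N : ℤ) + 1 - 1 = -N := by ring
  have e3 : -(N : ℤ) + 1 = 1 - N := by ring
  rw [e1, e2, e3, sub_add_cancel]
  have v1 : v (-(N : ℤ)) = 0 := hv.out _ (by rw [abs_neg]; exact le_abs_self _)
  have v2 : v (N : ℤ) = 0 := hv.out _ (le_abs_self _)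
  rw [v1, v2]
  push_cast
  have e4 : x + -(N : ℝ) * al = x - N * al := by ring
  rw [e4]
  ring

private theorem jop_shift (al : ℝ) (F h : ℝ → ℝ) (x : ℝ) (u : ℤ → ℝ) (m n : ℤ) :
    Jop al F h (x + m * al) (fun k => u (m + k)) n = Jop al F h x u (m + n) := by
  unfold Jop
  push_cast
  have e1 : x + m * al + n * al = x + (m + n) * al := by ring
  have e2 : x + m * al + (n - 1) * al = x + (m + n - 1) * al := by ring
  have e3 : m + (n + 1) = m + n + 1 := by ring
  have e4 : m + (n - 1) = m + n - 1 := by ring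
  rw [e1, e2, e3, e4]

/-- `u` solves the equation in the whole window around `m`. -/
theorem pair_site {al : ℝ} {F h : ℝ → ℝ} {N : ℕ} (hN : 1 ≤ N) {x : ℝ} (m : ℤ) {v : ℤ → ℝ}
    (hv : Win al F h N (x + m * al) v) (u : ℤ → ℝ)
    (hu : ∀ n : ℤ, |n| < N → Jop al F h x u (m + n) = 0) :
    Jop al F h (x + m * al) v 0 * u m = h (x + m * al + (N - 1) * al) * v (N - 1) * u (m + N) +
      h (x + m * al - N * al) * v (1 - N) * u (m - N) := by
  have h1 := pair hN hv (fun k => u (m + k))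
  have h2 : ∑ n ∈ Finset.Ioo (-(N : ℤ)) N, v n * Jop al F h (x + m * al) (fun k => u (m + k)) n = 0 := by
    refine Finset.sum_eq_zero fun n hn => ?_
    rw [Finset.mem_Ioo] at hn
    rw [jop_shift, hu n (abs_lt.2 hn), mul_zero]
  rw [h2] at h1
  have e1 : m + 0 = m := add_zero m
  have e2 : m + -(N : ℤ) = m - N := by ring
  simp only [e1, e2] at h1
  linear_combination -h1

/-- comparison of two windows at the same phase -/
theorem pair_win {al : ℝ} {F h : ℝ → ℝ} {N M : ℕ} (hN : 1 ≤ N) (hNM : N ≤ M) {x : ℝ} {v u : ℤ → ℝ}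
    (hv : Win al F h N x v) (hu : Win al F h M x u) :
    Jop al F h x u 0 = Jop al F h x v 0 - h (x + (N - 1) * al) * v (N - 1) * u N -
        h (x - N * al) * v (1 - N) * u (-N) := by
  have h1 := pair hN hv u
  rw [sum_zero hN (fun m => v m * Jop al F h x u m) fun m h0 hm => by
    rw [hu.eq m h0 (lt_of_lt_of_le hm (by exact_mod_cast hNM)), mul_zero], hv.one, hu.one,
    one_mul, one_mul] at h1
  exact h1

/-- The Wronskian identity for two different equations. -/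
theorem wron {al : ℝ} {F h F' h' : ℝ → ℝ} {N : ℕ} {x x' : ℝ} {v v' : ℤ → ℝ}
    (hv : Win al F h N x v) (hv' : Win al F' h' N x' v') :
    Jop al F h x v 0 - Jop al F' h' x' v' 0 =
      ∑ m ∈ Finset.Ioo (-(N : ℤ)) N, (F (x + m * al) - F' (x' + m * al)) * (v m * v' m) -
      ∑ m ∈ Finset.Ico (-(N : ℤ)) N, (h (x + m * al) - h' (x' + m * al)) *
        (v (m + 1) * v' m + v m * v' (m + 1)) := by
  have hN : 1 ≤ N := by
    by_contra h0
    have h1 : N = 0 := by omega
    have h2 := hv.out 0 (by rw [h1]; simp)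
    rw [hv.one] at h2
    exact one_ne_zero h2
  have v1 : v (-(N : ℤ)) = 0 := hv.out _ (by rw [abs_neg]; exact le_abs_self _)
  have v1' : v' (-(N : ℤ)) = 0 := hv'.out _ (by rw [abs_neg]; exact le_abs_self _)
  have v2 : v (N : ℤ) = 0 := hv.out _ (le_abs_self _)
  have v2' : v' (N : ℤ) = 0 := hv'.out _ (le_abs_self _)
  have hI : Finset.Ico (-(N : ℤ)) N = insert (-(N : ℤ)) (Finset.Ioo (-(N : ℤ)) N) := by
    ext m
    simp only [Finset.mem_insert, Finset.mem_Ioo, Finset.mem_Ico]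
    omega
  have hni : -(N : ℤ) ∉ Finset.Ioo (-(N : ℤ)) (N : ℤ) := by simp
  have h1 := telesc (fun m => -(h (x + m * al) * (v m * v' (m + 1)) - h' (x' + m * al) * (v' m * v (m + 1))))
    (-(N : ℤ) + 1) (2 * N - 1)
  rw [← Ioo_eq hN] at h1
  have h2 : ∀ m : ℤ, v' m * Jop al F h x v m - v m * Jop al F' h' x' v' m =
      (F (x + m * al) - F' (x' + m * al)) * (v m * v' m) -
      (h (x + m * al) - h' (x' + m * al)) * (v (m + 1) * v' m + v m * v' (m + 1)) +
      (-(h (x + ((m - 1 : ℤ) : ℝ) * al) * (v (m - 1) * v' (m - 1 + 1)) -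
          h' (x' + ((m - 1 : ℤ) : ℝ) * al) * (v' (m - 1) * v (m - 1 + 1))) -
        -(h (x + m * al) * (v m * v' (m + 1)) - h' (x' + m * al) * (v' m * v (m + 1)))) := by
    intro m
    unfold Jop
    push_cast
    rw [sub_add_cancel]
    ring
  have h3 : ∑ m ∈ Finset.Ioo (-(N : ℤ)) N, (v' m * Jop al F h x v m - v m * Jop al F' h' x' v' m) =
      Jop al F h x v 0 - Jop al F' h' x' v' 0 := by
    rw [sum_zero hN _ fun m h0 hm => by rw [hv.eq m h0 hm, hv'.eq m h0 hm, mul_zero, mul_zero, sub_zero],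
      hv.one, hv'.one, one_mul, one_mul]
  rw [← h3, Finset.sum_congr rfl fun m _ => h2 m, Finset.sum_add_distrib, h1, Finset.sum_sub_distrib,
    hI, Finset.sum_insert hni]
  have e1 : -(N : ℤ) + 1 + ((2 * N - 1 : ℕ) : ℤ) - 1 = N - 1 := by omega
  have e2 : -(N : ℤ) + 1 - 1 = -N := by ring
  rw [e1, e2, sub_add_cancel, v1, v1', v2, v2']
  push_cast
  ring

end Pool.Agent.MP31f1e8.KLD
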