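import Pool.Agent.Lib.MP_31f1e8_mp.KLD.Step

/-!
KLD-Seq. Canonical sequences of points, good sets of energies.

`chain_of_good` by induction on `s`: `pseq` at `0` is a choice with `Base` (`exists_base`), `pseq` at `j + 1` is a choice with `Nxt` if one exists (`Classical.epsilon_spec`); it exists by
`step` since the chain up to `j` exists and `NR` holds at `j`.
-/

namespace Pool.Agent.MP31f1e8.KLD

open Set Classical

/-- canonical choice of the points of level `0, 1, 2, …` at the energy `z` -/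
noncomputable def pseq (al c C L A1 A2 B1 B2 : ℝ) (N : ℕ → ℕ) (F h : ℝ → ℝ → ℝ) (z : ℝ) : ℕ → ℝ × ℝ
  | 0 => Classical.epsilon fun q => Base al c C L A1 A2 B1 B2 (F z) (h z) q
  | j + 1 => Classical.epsilon fun q => Nxt al c L N (F z) (h z) j
      (pseq al c C L A1 A2 B1 B2 N F h z j) q

/-- energies without double resonance at the levels `≤ s` -/
def Gd (al c C L z1 z2 A1 A2 B1 B2 : ℝ) (N : ℕ → ℕ) (F h : ℝ → ℝ → ℝ) (s : ℕ) : Set ℝ :=
  {z | z ∈ Icc z1 z2 ∧ ∀ j, j < s → NR al (dl L N j) (N (j + 1)) (pseq al c C L A1 A2 B1 B2 N F h z j)}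

variable {al c C L z1 z2 A1 A2 B1 B2 mu : ℝ} {F h : ℝ → ℝ → ℝ} {N : ℕ → ℕ}

theorem chain_of_good (hL : 0 < L) (H : Hyp c C L z1 z2 A1 A2 B1 B2 F h) (hS : Sc al L (c / (4 * C)) mu N)
    {s : ℕ} {z : ℝ} (hz : z ∈ Gd al c C L z1 z2 A1 A2 B1 B2 N F h s) :
    Chain al c C L A1 A2 B1 B2 N (F z) (h z) s (pseq al c C L A1 A2 B1 B2 N F h z) := by
  induction s with
  | zero =>
    refine ⟨?_, fun j hj => absurd hj (Nat.not_lt_zero _), fun j hj => absurd hj (Nat.not_lt_zero _)⟩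
    exact Classical.epsilon_spec (exists_base hL H hz.1)
  | succ s ih =>
    have hc := ih ⟨hz.1, fun j hj => hz.2 j (Nat.lt_succ_of_lt hj)⟩
    have h2 := step hL H hS hz.1 hc (hz.2 s (Nat.lt_succ_self s))
    refine ⟨hc.base, hz.2, fun j hj => ?_⟩
    rcases Nat.lt_succ_iff_lt_or_eq.mp hj with h | h
    · exact hc.nxt j h
    · subst h
      exact Classical.epsilon_spec h2

end Pool.Agent.MP31f1e8.KLD
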