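import Pool.Agent.Lib.MP_31f1e8_mp.KLD.Near

/-!
KLD-Site. The type of a site. Let `j ≤ s` be the largest index with `j = 0` or `near (dl (j - 1)) (x + m al) (p (j - 1))`
(`Nat.findGreatest`). Then `¬ near (dl j) (x + m al) (p j)`: for `j < s` by maximality, for `j = s` by `near_near` (`2 dl s + dl s ≤ 5 dl s`,
`hS.dio s`, `hnr`) for the points `x` and `x + m al`. So the level `j` (`hch.base.lev` for `j = 0`, `(hch.nxt (j - 1)).lev` for `j ≥ 1`, `dl ≤ 2 dl`)
gives the window solution `v`, with `d = dl j ≤ 1`.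
`N j ≤ |m|`, `|m| + N j ≤ N (s + 1)`: clear for `j = 0` (`N 0 = 1`). For `j = i + 1`, `i < s`: `near (dl i / 2) x (p i)` (`near_down`), and
`x' = x ± N (s + 1) al` (sign of `m`) is within `dl (s - 1) / 2 ≤ dl i / 2` of `x` modulo `1` (`hS.ret (s - 1)`), so `near (dl i) x' (p i)` (`near_add`);
`near (dl i) (x + m al) (p i)`. If `|m| < N j`: `near_near` for `x`, `x + m al` (`hS.dio i`, `hch.nr i`, `3/2 dl i ≤ 5 dl i`); if
`N (s + 1) - |m| < N j`: `near_near` for `x + m al` and `x'` (`2 dl i ≤ 5 dl i`).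
-/

namespace Pool.Agent.MP31f1e8.KLD

variable {al c C L A1 A2 B1 B2 d1 mu : ℝ} {N : ℕ → ℕ} {F h : ℝ → ℝ} {s : ℕ} {p : ℕ → ℝ × ℝ}

private theorem dl_le_one {L : ℝ} (hL : 0 < L) (N : ℕ → ℕ) (j : ℕ) : dl L N j ≤ 1 := by
  unfold dl
  rw [Real.exp_le_one_iff]
  have h1 := rr_pos hL j
  have h2 : (0 : ℝ) ≤ N j := Nat.cast_nonneg _
  nlinarith

theorem site (hL : 0 < L) (hS : Sc al L d1 mu N) (hch : Chain al c C L A1 A2 B1 B2 N F h s p)
    (hnr : NR al (dl L N s) (N (s + 1)) (p s)) {x : ℝ} (hx : near (2 * dl L N s) x (p s)) (m : ℤ)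
    (h0 : m ≠ 0) (hm : |m| < N (s + 1)) :
    ∃ j, j ≤ s ∧ (N j : ℤ) ≤ |m| ∧ |m| + N j ≤ N (s + 1) ∧
      ∃ v, Win al F h (N j) (x + m * al) v ∧ Dec (bb L j) v ∧
        c / 2 * dl L N j ≤ |Jop al F h (x + m * al) v 0| := by
  classical
  obtain ⟨P, hP⟩ : ∃ P : ℕ → Prop, P = fun j => j = 0 ∨ near (dl L N (j - 1)) (x + m * al) (p (j - 1)) :=
    ⟨_, rfl⟩
  have hP0 : P 0 := by rw [hP]; exact Or.inl rfl
  obtain ⟨j, hj⟩ : ∃ j, j = Nat.findGreatest P s := ⟨_, rfl⟩
  have hjs : j ≤ s := by rw [hj]; exact Nat.findGreatest_le s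
  have hPj : P j := by rw [hj]; exact Nat.findGreatest_spec (Nat.zero_le s) hP0
  have hnot : ¬ near (dl L N j) (x + m * al) (p j) := by
    rcases Nat.lt_or_ge j s with hlt | hge
    · have h1 : ¬ P (j + 1) := by
        refine Nat.findGreatest_is_greatest ?_ (Nat.succ_le_of_lt hlt)
        rw [← hj]; exact Nat.lt_succ_self j
      rw [hP] at h1
      intro h2
      exact h1 (Or.inr (by simpa using h2))
    · have hjs' : j = s := le_antisymm hjs hge
      rw [hjs']
      intro h2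
      refine near_near (hS.dio s) hnr ?_ h0 hm.le hx h2
      linarith [dl_pos L N s]
  have hm1 : 1 ≤ |m| := Int.one_le_abs h0
  refine ⟨j, hjs, ?_⟩
  rcases Nat.eq_zero_or_pos j with hj0 | hjp
  · rw [hj0] at hnot ⊢
    refine ⟨?_, ?_, ?_⟩
    · rw [hS.zero]; exact_mod_cast hm1
    · rw [hS.zero]; push_cast; omega
    · obtain ⟨v, hv1, hv2, hv3⟩ := hch.base.lev.low (x + m * al) trivial
      rw [hS.zero]
      exact ⟨v, hv1, hv2, hv3 _ (dl_le_one hL N 0) hnot⟩
  · obtain ⟨i, rfl⟩ : ∃ i, j = i + 1 := ⟨j - 1, by omega⟩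
    have hi : i < s := by omega
    have hnear : near (dl L N i) (x + m * al) (p i) := by
      rw [hP] at hPj
      rcases hPj with h1 | h1
      · omega
      · simpa using h1
    have hd := dl_pos L N i
    have hxi := near_down hS hch hi hx
    have hNs : (N (i + 1) : ℤ) ≤ |m| := by
      by_contra hcon
      exact near_near (hS.dio i) (hch.nr i hi) (by linarith) h0 (by omega) hxi hnear
    refine ⟨hNs, ?_, ?_⟩
    · obtain ⟨s', rfl⟩ : ∃ s', s = s' + 1 := ⟨s - 1, by omega⟩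
      obtain ⟨l, hl⟩ := hS.ret s'
      have hdd : dl L N s' ≤ dl L N i := by
        rcases Nat.eq_or_lt_of_le (Nat.lt_succ_iff.1 hi) with h1 | h1
        · rw [h1]
        · linarith [dl_lt hS h1]
      obtain ⟨K, hK, hKm, hKl⟩ : ∃ K : ℤ, (|K - m| = N (s' + 1 + 1) - |m|) ∧ K ≠ m ∧
          ∃ l' : ℤ, |x + K * al - x - l'| ≤ dl L N i / 2 := by
        rcases lt_or_gt_of_ne h0 with hneg | hpos
        · refine ⟨-(N (s' + 1 + 1) : ℤ), ?_, ?_, -l, ?_⟩
          · rw [abs_of_neg hneg] at hm ⊢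
            rw [abs_of_neg (by omega)]
            ring
          · rw [abs_of_neg hneg] at hm
            omega
          · have e : x + ((-(N (s' + 1 + 1) : ℤ) : ℤ) : ℝ) * al - x - ((-l : ℤ) : ℝ) =
                -((N (s' + 2) : ℝ) * al - l) := by push_cast; ring
            rw [e, abs_neg]
            linarith
        · refine ⟨(N (s' + 1 + 1) : ℤ), ?_, ?_, l, ?_⟩
          · rw [abs_of_pos hpos] at hm ⊢
            rw [abs_of_pos (by omega)]
          · rw [abs_of_pos hpos] at hm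
            omega
          · have e : x + (((N (s' + 1 + 1) : ℤ) : ℤ) : ℝ) * al - x - (l : ℝ) =
                ((N (s' + 2) : ℝ) * al - l) := by push_cast; ring
            rw [e]
            linarith
      by_contra hcon
      have hK' := near_add hxi hKl
      have hK'' : near (dl L N i / 2 + dl L N i / 2) (x + m * al + ((K - m : ℤ) : ℝ) * al) (p i) := by
        have e : x + m * al + ((K - m : ℤ) : ℝ) * al = x + K * al := by push_cast; ring
        rw [e]
        exact hK'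
      refine near_near (hS.dio i) (hch.nr i hi) (by linarith) (sub_ne_zero.2 hKm) ?_ hnear hK''
      rw [hK]
      omega
    · obtain ⟨v, hv1, hv2, hv3⟩ := (hch.nxt i hi).lev.low (x + m * al)
        (near_mono (by linarith) hnear)
      exact ⟨v, hv1, hv2, hv3 _ (dl_le_one hL N (i + 1)) hnot⟩

end Pool.Agent.MP31f1e8.KLD
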