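import Pool.Agent.Lib.MP_31f1e8_mp.KLD.WinNext
import Pool.Agent.Lib.MP_31f1e8_mp.KLD.Geo
import Pool.Agent.Lib.MP_31f1e8_mp.KLD.Base

/-!
KLD-Step. The step from level `s` to level `s + 1` (fixed energy `z`; `F = F z`, `h = h z`).

Let `a = (p s).1`, `δ = dl s`, `e = exp (-(L N_s)) ≤ δ / 16`. For `|x - a| < 2 δ` choose `u_x` by `win_next` (`near (2 δ) x (p s)` with `l = 0`), `f x = Jop .. u_x 0`.
(1) `wron_bd` (same `F`, `h`; `E = C |x - x'|`, `b = bb (s + 1) ≥ L / 2`): `|f x - f x' - (F x - F x')| ≤ 12 C |x - x'| exp (-(L / 2)) ≤ (c / 4) |x - x'|`. `x, x'` are in `[A1, A2]` (`arcs`), so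
`f x - f x' ≥ (3 c / 4) (x - x')` for `x ≥ x'` (`incA`), and `f` is Lipschitz, so continuous on the open interval.
(2) `|f a| ≤ (c / 2) e`: `pair_win` with `v` the window solution of level `s` at `a` (`(J v)_0 = 0`: `hch.base.lev.za` if `s = 0` (then `N 0 = 1`), `(hch.nxt (s - 1)).lev.za` otherwise),
`|h| ≤ (c / 4) exp (-L)`, `|v (±(N_s - 1))| ≤ exp (-(bb s (N_s - 1)))`, `|u (±N_s)| ≤ exp (-(bb (s + 1) N_s))`, `L + bb s (N_s - 1) + bb (s + 1) N_s ≥ L N_s`.
(3) `f (a + e) > 0 > f (a - e)`: a zero `q.1` with `|q.1 - a| ≤ e`.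
(4) the same for `(p s).2` with `decB` (`-f` increasing): `q.2`.
(5) `Lev.low`: `near (2 δ) x (p s)`: `|x - l - a| < 2 δ` (or `b`): `u_{x - l}` is a window solution at `x` too (periodicity `per_int`: `F (x + m al) = F (x - l + m al)`), and
`|f (x - l)| = |f (x - l) - f q.1| ≥ (3 c / 4) |x - l - q.1| ≥ (c / 2) d` if `¬ near d x q` (for `d ≥ 0`; trivial for `d < 0`).
-/

namespace Pool.Agent.MP31f1e8.KLD

open Set

private theorem branch {al c C L b e δ a σ : ℝ} {F h : ℝ → ℝ} {M : ℕ} (hM : 1 ≤ M) (hc : 0 < c)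
    (hC : c ≤ C) (hL : 48 * C * Real.exp (-(L / 2)) ≤ c) (hL4 : 4 * Real.exp (-(L / 2)) ≤ 1)
    (hb : L / 2 ≤ b) (lipF : ∀ x y, |F x - F y| ≤ C * |x - y|) (liph : ∀ x y, |h x - h y| ≤ C * |x - y|)
    (he : 0 < e) (heδ : e < 2 * δ) (hσ : σ ^ 2 = 1)
    (hu : ∀ x, |x - a| < 2 * δ → ∃ u, Win al F h M x u ∧ Dec b u)
    (hmono : ∀ x y, |x - a| < 2 * δ → |y - a| < 2 * δ → x ≤ y → c * (y - x) ≤ σ * (F y - F x))
    (ha : ∀ u, Win al F h M a u → Dec b u → |Jop al F h a u 0| ≤ c / 2 * e) :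
    ∃ q, |q - a| ≤ e ∧ (∃ u, Win al F h M q u ∧ Dec b u ∧ Jop al F h q u 0 = 0) ∧
      ∀ x, |x - a| < 2 * δ → ∃ u, Win al F h M x u ∧ Dec b u ∧
        c / 2 * |x - q| ≤ |Jop al F h x u 0| := by
  choose! u hu1 hu2 using hu
  obtain ⟨f, hf⟩ : ∃ f : ℝ → ℝ, f = fun x => Jop al F h x (u x) 0 := ⟨_, rfl⟩
  have hσ1 : |σ| = 1 := by
    have h1 : |σ| ^ 2 = 1 := by rw [sq_abs, hσ]
    nlinarith [abs_nonneg σ]
  have diff : ∀ x y, |x - a| < 2 * δ → |y - a| < 2 * δ → |f x - f y - (F x - F y)| ≤ c / 4 * |x - y| := by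
    intro x y hx hy
    have h1 := wron_bd (al := al) (E := C * |x - y|) hb hL4
      (mul_nonneg (hc.le.trans hC) (abs_nonneg _)) hM (hu1 x hx) (hu1 y hy)
      (hu2 x hx) (hu2 y hy)
      (fun m => (lipF _ _).trans (le_of_eq (by congr 2; ring)))
      (fun m => (liph _ _).trans (le_of_eq (by congr 2; ring)))
    rw [hf]
    refine h1.trans ?_
    have h2 : 12 * (C * |x - y|) * Real.exp (-(L / 2)) = 12 * C * Real.exp (-(L / 2)) * |x - y| := by ring
    rw [h2]
    exact mul_le_mul_of_nonneg_right (by linarith) (abs_nonneg _)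
  have inc : ∀ x y, |x - a| < 2 * δ → |y - a| < 2 * δ → x ≤ y → 3 * c / 4 * (y - x) ≤ σ * (f y - f x) := by
    intro x y hx hy hxy
    have h1 := diff y x hy hx
    rw [abs_of_nonneg (sub_nonneg.2 hxy)] at h1
    have h2 := hmono x y hx hy hxy
    have h3 : |σ * (f y - f x - (F y - F x))| ≤ c / 4 * (y - x) := by
      rw [abs_mul, hσ1, one_mul]; exact h1
    have h4 := (abs_le.1 h3).1
    nlinarith
  have ha0 : |a - a| < 2 * δ := by rw [sub_self, abs_zero]; linarith
  have hp : |a + e - a| < 2 * δ := by rw [add_sub_cancel_left, abs_of_pos he]; exact heδ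
  have hm : |a - e - a| < 2 * δ := by
    have : a - e - a = -e := by ring
    rw [this, abs_neg, abs_of_pos he]; exact heδ
  have hfa : |σ * f a| ≤ c / 2 * e := by
    rw [abs_mul, hσ1, one_mul, hf]
    exact ha _ (hu1 a ha0) (hu2 a ha0)
  have h1 := inc a (a + e) ha0 hp (by linarith)
  have h2 := inc (a - e) a hm ha0 (by linarith)
  have hce : 0 < c * e := mul_pos hc he
  have g1 : 0 ≤ σ * f (a + e) := by
    have := (abs_le.1 hfa).1
    nlinarith
  have g2 : σ * f (a - e) ≤ 0 := by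
    have := (abs_le.1 hfa).2
    nlinarith
  have hsub : ∀ x ∈ Icc (a - e) (a + e), |x - a| < 2 * δ := by
    intro x hx
    rw [abs_lt]
    constructor <;> linarith [hx.1, hx.2]
  have hcont : ContinuousOn (fun x => σ * f x) (Icc (a - e) (a + e)) := by
    have hlip : LipschitzOnWith (Real.toNNReal (C + c / 4)) f (Icc (a - e) (a + e)) := by
      refine LipschitzOnWith.of_dist_le_mul fun x hx y hy => ?_
      rw [Real.dist_eq, Real.dist_eq, Real.coe_toNNReal _ (by linarith)]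
      have h3 := diff x y (hsub x hx) (hsub y hy)
      calc |f x - f y| = |(f x - f y - (F x - F y)) + (F x - F y)| := by congr 1; ring
        _ ≤ |f x - f y - (F x - F y)| + |F x - F y| := abs_add_le _ _
        _ ≤ c / 4 * |x - y| + C * |x - y| := add_le_add h3 (lipF x y)
        _ = (C + c / 4) * |x - y| := by ring
    exact continuousOn_const.mul hlip.continuousOn
  obtain ⟨q, hq, hq0⟩ := intermediate_value_Icc (by linarith : a - e ≤ a + e) hcont ⟨g2, g1⟩
  have hq1 := hsub q hq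
  have hfq : f q = 0 := by
    have h5 : σ * f q = 0 := hq0
    rcases mul_eq_zero.1 h5 with h6 | h6
    · rw [h6] at hσ; norm_num at hσ
    · exact h6
  refine ⟨q, ?_, ⟨u q, hu1 q hq1, hu2 q hq1, ?_⟩, fun x hx => ⟨u x, hu1 x hx, hu2 x hx, ?_⟩⟩
  · rw [abs_le]; constructor <;> linarith [hq.1, hq.2]
  · rw [hf] at hfq; exact hfq
  · have h7 : Jop al F h x (u x) 0 = f x := by rw [hf]
    rw [h7]
    have h8 : |σ * f x| = |f x| := by rw [abs_mul, hσ1, one_mul]
    rw [← h8]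
    rcases le_total x q with hxq | hxq
    · have h9 := inc x q hx hq1 hxq
      rw [hfq, zero_sub] at h9
      rw [abs_sub_comm, abs_of_nonneg (sub_nonneg.2 hxq)]
      refine le_trans ?_ (neg_le_abs _)
      nlinarith [mul_nonneg hc.le (sub_nonneg.2 hxq)]
    · have h9 := inc q x hq1 hx hxq
      rw [hfq, sub_zero] at h9
      rw [abs_of_nonneg (sub_nonneg.2 hxq)]
      refine le_trans ?_ (le_abs_self _)
      nlinarith [mul_nonneg hc.le (sub_nonneg.2 hxq)]

private theorem win_per {al : ℝ} {F h : ℝ → ℝ} (hF : ∀ x, F (x + 1) = F x) (hh : ∀ x, h (x + 1) = h x)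
    {M : ℕ} {x : ℝ} (l : ℤ) {u : ℤ → ℝ} (hw : Win al F h M (x - l) u) :
    Win al F h M x u ∧ Jop al F h (x - l) u 0 = Jop al F h x u 0 := by
  have key : ∀ m : ℤ, Jop al F h (x - l) u m = Jop al F h x u m := by
    intro m
    unfold Jop
    have e1 : x - l + m * al = x + m * al - l := by ring
    have e2 : x - l + (m - 1) * al = x + (m - 1) * al - l := by ring
    rw [e1, e2, per_int hF, per_int hh, per_int hh]
  exact ⟨⟨hw.one, hw.out, fun m h0 hm => by rw [← key]; exact hw.eq m h0 hm⟩, key 0⟩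

theorem step {al c C L z1 z2 A1 A2 B1 B2 mu : ℝ} {F h : ℝ → ℝ → ℝ} {N : ℕ → ℕ} (hL : 0 < L)
    (H : Hyp c C L z1 z2 A1 A2 B1 B2 F h) (hS : Sc al L (c / (4 * C)) mu N) {z : ℝ} (hz : z ∈ Icc z1 z2)
    {s : ℕ} {p : ℕ → ℝ × ℝ} (hch : Chain al c C L A1 A2 B1 B2 N (F z) (h z) s p)
    (hnr : NR al (dl L N s) (N (s + 1)) (p s)) :
    ∃ q, Nxt al c L N (F z) (h z) s (p s) q := by
  have hd := dl_pos L N s
  have hN1 : 1 ≤ N s := by have := N_ge hS s; omega
  have hM1 : 1 ≤ N (s + 1) := by have := N_ge hS (s + 1); omega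
  have hmono := hS.mono s
  have hex : 0 < Real.exp (-(L * N s)) := Real.exp_pos _
  have hgap := hS.gap s
  have lipF : ∀ x y, |F z x - F z y| ≤ C * |x - y| := by
    intro x y
    have := H.lipF z hz z hz x y
    rwa [sub_self, abs_zero, add_zero] at this
  have liph : ∀ x y, |h z x - h z y| ≤ C * |x - y| := by
    intro x y
    have := H.liph z hz z hz x y
    rwa [sub_self, abs_zero, add_zero] at this
  obtain ⟨⟨ar1, ar2⟩, ar3, ar4⟩ := arcs H.hc H.hC hS hch
  -- the value at the old zero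
  have hval : ∀ a : ℝ, (∃ v, Win al (F z) (h z) (N s) a v ∧ Dec (bb L s) v ∧ Jop al (F z) (h z) a v 0 = 0) →
      ∀ u, Win al (F z) (h z) (N (s + 1)) a u → Dec (bb L (s + 1)) u →
        |Jop al (F z) (h z) a u 0| ≤ c / 2 * Real.exp (-(L * N s)) := by
    rintro a ⟨v, hv, dv, hv0⟩ u hu du
    rw [pair_win hN1 hmono.le hv hu, hv0]
    have hNr : (1 : ℝ) ≤ N s := by exact_mod_cast hN1
    have v1 : |v (N s - 1)| ≤ Real.exp (-(bb L s * (N s - 1))) := by
      have := dv (N s - 1)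
      push_cast at this
      rwa [abs_of_nonneg (by linarith : (0 : ℝ) ≤ (N s : ℝ) - 1)] at this
    have v2 : |v (1 - N s)| ≤ Real.exp (-(bb L s * (N s - 1))) := by
      have := dv (1 - N s)
      push_cast at this
      rwa [abs_of_nonpos (by linarith : (1 : ℝ) - (N s : ℝ) ≤ 0), neg_sub] at this
    have u1 : |u (N s)| ≤ Real.exp (-(bb L (s + 1) * N s)) := by
      have := du (N s)
      push_cast at this
      rwa [abs_of_nonneg (by linarith : (0 : ℝ) ≤ (N s : ℝ))] at this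
    have u2 : |u (-N s)| ≤ Real.exp (-(bb L (s + 1) * N s)) := by
      have := du (-N s)
      push_cast at this
      rwa [abs_neg, abs_of_nonneg (by linarith : (0 : ℝ) ≤ (N s : ℝ))] at this
    obtain ⟨e1, he1⟩ : ∃ e1, e1 = Real.exp (-(bb L s * (N s - 1))) := ⟨_, rfl⟩
    obtain ⟨e2, he2⟩ : ∃ e2, e2 = Real.exp (-(bb L (s + 1) * N s)) := ⟨_, rfl⟩
    rw [← he1] at v1 v2
    rw [← he2] at u1 u2
    have he10 : 0 ≤ e1 := by rw [he1]; exact (Real.exp_pos _).le
    have he20 : 0 ≤ e2 := by rw [he2]; exact (Real.exp_pos _).le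
    have hq0 : 0 ≤ c / 4 * Real.exp (-L) := by have := H.hc; positivity
    have t1 : |h z (a + (N s - 1) * al) * v (N s - 1) * u (N s)| ≤ c / 4 * Real.exp (-L) * e1 * e2 := by
      rw [abs_mul, abs_mul]
      exact mul_le_mul (mul_le_mul (H.hh z hz _) v1 (abs_nonneg _) hq0) u1 (abs_nonneg _)
        (mul_nonneg hq0 he10)
    have t2 : |h z (a - N s * al) * v (1 - N s) * u (-N s)| ≤ c / 4 * Real.exp (-L) * e1 * e2 := by
      rw [abs_mul, abs_mul]
      exact mul_le_mul (mul_le_mul (H.hh z hz _) v2 (abs_nonneg _) hq0) u2 (abs_nonneg _)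
        (mul_nonneg hq0 he10)
    have t3 : |0 - h z (a + (N s - 1) * al) * v (N s - 1) * u (N s) -
        h z (a - N s * al) * v (1 - N s) * u (-N s)| ≤ c / 2 * (Real.exp (-L) * e1 * e2) := by
      rw [zero_sub]
      refine (abs_sub _ _).trans ?_
      rw [abs_neg]
      linarith
    refine t3.trans (mul_le_mul_of_nonneg_left ?_ (by have := H.hc; positivity))
    have t4 : Real.exp (-L) * e1 * e2 =
        Real.exp (-L + -(bb L s * (N s - 1)) + -(bb L (s + 1) * N s)) := by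
      rw [he1, he2, Real.exp_add, Real.exp_add]
    rw [t4]
    refine Real.exp_le_exp.2 ?_
    have b1 := bb_ge hL s
    have b2 := bb_ge hL (s + 1)
    have b3 := bb_le hL s
    nlinarith
  have hza : ∃ v, Win al (F z) (h z) (N s) (p s).1 v ∧ Dec (bb L s) v ∧
      Jop al (F z) (h z) (p s).1 v 0 = 0 := by
    rcases Nat.eq_zero_or_pos s with h0 | hpos
    · subst h0
      rw [hS.zero]
      exact hch.base.lev.za
    · obtain ⟨s', rfl⟩ : ∃ s', s = s' + 1 := ⟨s - 1, by omega⟩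
      exact (hch.nxt s' (Nat.lt_succ_self s')).lev.za
  have hzb : ∃ v, Win al (F z) (h z) (N s) (p s).2 v ∧ Dec (bb L s) v ∧
      Jop al (F z) (h z) (p s).2 v 0 = 0 := by
    rcases Nat.eq_zero_or_pos s with h0 | hpos
    · subst h0
      rw [hS.zero]
      exact hch.base.lev.zb
    · obtain ⟨s', rfl⟩ : ∃ s', s = s' + 1 := ⟨s - 1, by omega⟩
      exact (hch.nxt s' (Nat.lt_succ_self s')).lev.zb
  obtain ⟨qa, hqa, hqa0, hqal⟩ := branch (al := al) (c := c) (C := C) (L := L) (b := bb L (s + 1))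
    (e := Real.exp (-(L * N s))) (δ := dl L N s) (a := (p s).1) (σ := 1) (F := F z) (h := h z)
    (M := N (s + 1)) hM1 H.hc H.hC H.hL H.hL4 (bb_ge hL _) lipF liph hex (by linarith) (by norm_num)
    (fun x hx => win_next H.hc hL (H.hh z hz) hS hch hnr ⟨0, Or.inl (by
      push_cast; rw [sub_zero]; exact hx)⟩)
    (by
      intro x y hx hy hxy
      rw [one_mul]
      rw [abs_lt] at hx hy
      exact H.incA z hz x y (by linarith [hx.1]) hxy (by linarith [hy.2]))
    (hval _ hza)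
  obtain ⟨qb, hqb, hqb0, hqbl⟩ := branch (al := al) (c := c) (C := C) (L := L) (b := bb L (s + 1))
    (e := Real.exp (-(L * N s))) (δ := dl L N s) (a := (p s).2) (σ := -1) (F := F z) (h := h z)
    (M := N (s + 1)) hM1 H.hc H.hC H.hL H.hL4 (bb_ge hL _) lipF liph hex (by linarith) (by norm_num)
    (fun x hx => win_next H.hc hL (H.hh z hz) hS hch hnr ⟨0, Or.inr (by
      push_cast; rw [sub_zero]; exact hx)⟩)
    (by
      intro x y hx hy hxy
      rw [abs_lt] at hx hy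
      have := H.decB z hz x y (by linarith [hx.1]) hxy (by linarith [hy.2])
      linarith)
    (hval _ hzb)
  refine ⟨(qa, qb), ⟨⟨fun x hx => ?_, hqa0, hqb0⟩, hqa, hqb⟩⟩
  obtain ⟨l, hl | hl⟩ := hx
  · obtain ⟨u, hu, du, hlow⟩ := hqal (x - l) hl
    obtain ⟨hu', hJ⟩ := win_per (H.perF z) (H.perh z) l hu
    refine ⟨u, hu', du, fun d _ hnd => ?_⟩
    rw [← hJ]
    refine le_trans (mul_le_mul_of_nonneg_left ?_ (by have := H.hc; positivity)) hlow
    by_contra hcon
    exact hnd ⟨l, Or.inl (not_le.1 hcon)⟩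
  · obtain ⟨u, hu, du, hlow⟩ := hqbl (x - l) hl
    obtain ⟨hu', hJ⟩ := win_per (H.perF z) (H.perh z) l hu
    refine ⟨u, hu', du, fun d _ hnd => ?_⟩
    rw [← hJ]
    refine le_trans (mul_le_mul_of_nonneg_left ?_ (by have := H.hc; positivity)) hlow
    by_contra hcon
    exact hnd ⟨l, Or.inr (not_le.1 hcon)⟩

end Pool.Agent.MP31f1e8.KLD
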