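import Pool.Agent.Lib.MP_31f1e8_mp.KLD.Site
import Pool.Agent.Lib.MP_31f1e8_mp.KLD.Pair
import Pool.Agent.Lib.MP_31f1e8_mp.KLD.Maxp
import Pool.Agent.Lib.MP_31f1e8_mp.KLD.Exist

/-!
KLD-WinNext. Window solutions of level `s + 1`.

`ineq`: let `u` vanish at `±N (s + 1)` and outside, `(J u)_n = 0` for `n ≠ 0`, `|n| < N (s + 1)`. For `0 < |m| < N (s + 1)` take `j`, `v` from
`site`; `pair_site` (for `|n| < N j` the site `m + n` is `≠ 0` and in the window, since `N j ≤ |m|`, `|m| + N j ≤ N (s + 1)`):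
`c / 2 dl j |u m| ≤ (c / 4) exp (-L) exp (-(bb j (N j - 1))) (|u (m + N j)| + |u (m - N j)|)`, so
`|u m| ≤ exp (-L - bb j (N j - 1) + rr j N j) max ≤ exp (-((bb j - rr j) N j)) max` (`bb j ≤ L`), and `bb (s + 1) < bb j - rr j` (`bb_succ`, `bb_anti`, `rr_pos`).
So `maxp` with `b = bb (s + 1)` for `w m = |u m|` and `w m = |u (-m)|` on `[0, N (s + 1)]`: `|u m| ≤ exp (-(bb (s + 1) |m|)) |u 0|`. If `u 0 = 0` then `u = 0`: `exist_win`; then
`u 0 = 1` gives the decay.
-/

namespace Pool.Agent.MP31f1e8.KLD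

variable {al c C L A1 A2 B1 B2 d1 mu : ℝ} {N : ℕ → ℕ} {F h : ℝ → ℝ} {s : ℕ} {p : ℕ → ℝ × ℝ}

private theorem ineq (hc : 0 < c) (hL : 0 < L) (hh : ∀ x, |h x| ≤ c / 4 * Real.exp (-L)) (hS : Sc al L d1 mu N)
    (hch : Chain al c C L A1 A2 B1 B2 N F h s p)
    (hnr : NR al (dl L N s) (N (s + 1)) (p s)) {x : ℝ} (hx : near (2 * dl L N s) x (p s)) {u : ℤ → ℝ}
    (hu : ∀ m : ℤ, m ≠ 0 → |m| < N (s + 1) → Jop al F h x u m = 0) (m : ℤ) (h0 : m ≠ 0)
    (hm : |m| < N (s + 1)) :
    ∃ r : ℕ, 1 ≤ r ∧ (r : ℤ) ≤ |m| ∧ |m| + r ≤ N (s + 1) ∧ ∃ b' : ℝ, bb L (s + 1) < b' ∧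
      |u m| ≤ Real.exp (-(b' * r)) * max (|u (m - r)|) (|u (m + r)|) := by
  obtain ⟨j, hjs, hj1, hj2, v, hv, dv, lo⟩ := site hL hS hch hnr hx m h0 hm
  have hN1 : 1 ≤ N j := by have := N_ge hS j; omega
  refine ⟨N j, hN1, hj1, hj2, bb L j - rr L j, ?_, ?_⟩
  · have h1 := bb_anti hL (Nat.succ_le_succ hjs)
    have h2 := bb_succ L j
    have h3 := rr_pos hL j
    linarith
  · have hp := pair_site hN1 m hv u (fun n hn => hu (m + n) (by
      intro h
      have : m = -n := by omega
      rw [this, abs_neg] at hj1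
      omega) (by
      refine lt_of_le_of_lt (abs_add_le m n) ?_
      omega))
    obtain ⟨M, hM⟩ : ∃ M, M = max (|u (m - N j)|) (|u (m + N j)|) := ⟨_, rfl⟩
    rw [← hM]
    have hM1 : |u (m - N j)| ≤ M := by rw [hM]; exact le_max_left _ _
    have hM2 : |u (m + N j)| ≤ M := by rw [hM]; exact le_max_right _ _
    have hM0 : 0 ≤ M := (abs_nonneg _).trans hM1
    have hNr : (1 : ℝ) ≤ N j := by exact_mod_cast hN1
    have v1 : |v (N j - 1)| ≤ Real.exp (-(bb L j * (N j - 1))) := by
      have := dv (N j - 1)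
      push_cast at this
      rwa [abs_of_nonneg (by linarith : (0 : ℝ) ≤ (N j : ℝ) - 1)] at this
    have v2 : |v (1 - N j)| ≤ Real.exp (-(bb L j * (N j - 1))) := by
      have := dv (1 - N j)
      push_cast at this
      rwa [abs_of_nonpos (by linarith : (1 : ℝ) - (N j : ℝ) ≤ 0), neg_sub] at this
    obtain ⟨e, he⟩ : ∃ e, e = Real.exp (-(bb L j * (N j - 1))) := ⟨_, rfl⟩
    rw [← he] at v1 v2
    have he0 : 0 ≤ e := by rw [he]; exact (Real.exp_pos _).le
    have hq0 : 0 ≤ c / 4 * Real.exp (-L) := by positivity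
    have t1 : |h (x + m * al + (N j - 1) * al) * v (N j - 1) * u (m + N j)| ≤
        c / 4 * Real.exp (-L) * e * M := by
      rw [abs_mul, abs_mul]
      exact mul_le_mul (mul_le_mul (hh _) v1 (abs_nonneg _) hq0) hM2 (abs_nonneg _)
        (mul_nonneg hq0 he0)
    have t2 : |h (x + m * al - N j * al) * v (1 - N j) * u (m - N j)| ≤
        c / 4 * Real.exp (-L) * e * M := by
      rw [abs_mul, abs_mul]
      exact mul_le_mul (mul_le_mul (hh _) v2 (abs_nonneg _) hq0) hM1 (abs_nonneg _)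
        (mul_nonneg hq0 he0)
    have t3 : c / 2 * dl L N j * |u m| ≤ c / 2 * (Real.exp (-L) * e * M) := by
      calc c / 2 * dl L N j * |u m| ≤ |Jop al F h (x + m * al) v 0| * |u m| :=
            mul_le_mul_of_nonneg_right lo (abs_nonneg _)
        _ = |Jop al F h (x + m * al) v 0 * u m| := (abs_mul _ _).symm
        _ ≤ |h (x + m * al + (N j - 1) * al) * v (N j - 1) * u (m + N j)| +
            |h (x + m * al - N j * al) * v (1 - N j) * u (m - N j)| := by
          rw [hp]; exact abs_add_le _ _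
        _ ≤ c / 2 * (Real.exp (-L) * e * M) := by linarith
    have t4 : dl L N j * |u m| ≤ Real.exp (-L) * e * M := by
      have hc2 : 0 < c / 2 := by positivity
      have : c / 2 * (dl L N j * |u m|) ≤ c / 2 * (Real.exp (-L) * e * M) := by
        rw [← mul_assoc]; exact t3
      exact le_of_mul_le_mul_left this hc2
    have t5 : |u m| ≤ Real.exp (rr L j * N j) * (Real.exp (-L) * e * M) := by
      have hinv : Real.exp (rr L j * N j) * dl L N j = 1 := by
        unfold dl
        rw [← Real.exp_add, add_neg_cancel, Real.exp_zero]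
      calc |u m| = Real.exp (rr L j * N j) * dl L N j * |u m| := by rw [hinv, one_mul]
        _ = Real.exp (rr L j * N j) * (dl L N j * |u m|) := by ring
        _ ≤ _ := mul_le_mul_of_nonneg_left t4 (Real.exp_pos _).le
    refine t5.trans ?_
    have t6 : Real.exp (rr L j * N j) * (Real.exp (-L) * e * M) =
        Real.exp (rr L j * N j + -L + -(bb L j * (N j - 1))) * M := by
      rw [he, Real.exp_add, Real.exp_add]
      ring
    rw [t6]
    refine mul_le_mul_of_nonneg_right (Real.exp_le_exp.2 ?_) hM0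
    have := bb_le hL j
    nlinarith

theorem win_next (hc : 0 < c) (hL : 0 < L) (hh : ∀ x, |h x| ≤ c / 4 * Real.exp (-L)) (hS : Sc al L d1 mu N)
    (hch : Chain al c C L A1 A2 B1 B2 N F h s p)
    (hnr : NR al (dl L N s) (N (s + 1)) (p s)) {x : ℝ} (hx : near (2 * dl L N s) x (p s)) :
    ∃ u, Win al F h (N (s + 1)) x u ∧ Dec (bb L (s + 1)) u := by
  have hb0 : 0 ≤ bb L (s + 1) := by have := bb_ge hL (s + 1); linarith
  have key : ∀ u : ℤ → ℝ, (∀ m : ℤ, (N (s + 1) : ℤ) ≤ |m| → u m = 0) →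
      (∀ m : ℤ, m ≠ 0 → |m| < N (s + 1) → Jop al F h x u m = 0) → ∀ m : ℤ,
      |u m| ≤ Real.exp (-(bb L (s + 1) * |(m : ℝ)|)) * |u 0| := by
    intro u hout hu m
    rcases lt_or_ge |m| (N (s + 1) : ℤ) with hlt | hge
    · rcases le_total 0 m with hm | hm
      · have h1 := maxp hb0 (N (s + 1)) (fun n => |u n|) (fun n => abs_nonneg _)
          (by simp only [abs_eq_zero]; exact hout _ (le_abs_self _)) (by
            intro n hn0 hnN
            obtain ⟨r, hr1, hr2, hr3, b', hb', hle⟩ := ineq hc hL hh hS hch hnr hx hu (n : ℤ)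
              (by omega) (by rw [abs_of_nonneg (by omega)]; exact_mod_cast hnN)
            rw [abs_of_nonneg (by omega : (0 : ℤ) ≤ n)] at hr2 hr3
            refine ⟨r, hr1, by omega, by omega, b', hb', ?_⟩
            have e1 : ((n - r : ℕ) : ℤ) = (n : ℤ) - r := by omega
            have e2 : ((n + r : ℕ) : ℤ) = (n : ℤ) + r := by omega
            simp only [e1, e2]
            exact hle) m.toNat (by rw [abs_of_nonneg hm] at hlt; omega)
        have e3 : ((m.toNat : ℕ) : ℤ) = m := Int.toNat_of_nonneg hm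
        have e4 : ((m.toNat : ℕ) : ℝ) = m := by exact_mod_cast e3
        simp only [e3, e4, Nat.cast_zero] at h1
        rw [abs_of_nonneg (by exact_mod_cast hm : (0 : ℝ) ≤ m)]
        exact h1
      · have h1 := maxp hb0 (N (s + 1)) (fun n => |u (-(n : ℤ))|) (fun n => abs_nonneg _)
          (by simp only [abs_eq_zero]; exact hout _ (by rw [abs_neg]; exact le_abs_self _)) (by
            intro n hn0 hnN
            obtain ⟨r, hr1, hr2, hr3, b', hb', hle⟩ := ineq hc hL hh hS hch hnr hx hu (-(n : ℤ))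
              (by omega) (by rw [abs_neg, abs_of_nonneg (by omega)]; exact_mod_cast hnN)
            rw [abs_neg, abs_of_nonneg (by omega : (0 : ℤ) ≤ n)] at hr2 hr3
            refine ⟨r, hr1, by omega, by omega, b', hb', ?_⟩
            have e1 : -((n - r : ℕ) : ℤ) = -(n : ℤ) + r := by omega
            have e2 : -((n + r : ℕ) : ℤ) = -(n : ℤ) - r := by omega
            simp only [e1, e2]
            rw [max_comm]
            exact hle) (-m).toNat (by rw [abs_of_nonpos hm] at hlt; omega)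
        have e3 : (((-m).toNat : ℕ) : ℤ) = -m := Int.toNat_of_nonneg (by omega)
        have e4 : (((-m).toNat : ℕ) : ℝ) = -m := by exact_mod_cast e3
        simp only [e3, e4, neg_neg, Nat.cast_zero, neg_zero] at h1
        rw [abs_of_nonpos (by exact_mod_cast hm : (m : ℝ) ≤ 0)]
        exact h1
    · rw [hout m hge, abs_zero]
      positivity
  obtain ⟨u, hu⟩ := exist_win (al := al) (F := F) (h := h) (N := N (s + 1)) (x := x)
    (by have := N_ge hS (s + 1); omega) (by
      intro u h0 hout heq m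
      have := key u hout heq m
      rw [h0, abs_zero, mul_zero] at this
      exact abs_eq_zero.1 (le_antisymm this (abs_nonneg _)))
  refine ⟨u, hu, fun m => ?_⟩
  have := key u hu.out hu.eq m
  rwa [hu.one, abs_one, mul_one] at this

end Pool.Agent.MP31f1e8.KLD
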